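import Pool.Agent.H238R3.MS.Base

set_option autoImplicit false

/-!
# The sequence of divisors, systems of threats, and the one-variable systems
-/

namespace Pool.Agent.H238R3.MS

open Pool.Agent.H238R3.Lines Pool.Agent.H238R3.Game Pool.Agent.H238R3.Fam

/-- the products `D_n` -/
def PP (d : ℕ → ℕ) (n : ℕ) : ℕ := ∏ m ∈ Finset.range n, d m

lemma PP_zero (d : ℕ → ℕ) : PP d 0 = 1 := by simp [PP]

lemma PP_succ (d : ℕ → ℕ) (n : ℕ) : PP d (n+1) = PP d n * d n := by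
  simp [PP, Finset.prod_range_succ]

lemma two_pow_le {d : ℕ → ℕ} (hd : ∀ n, 2 ≤ d n) (n : ℕ) : 2^n ≤ PP d n := by
  induction n with
  | zero => simp [PP_zero]
  | succ n ih =>
    rw [PP_succ, pow_succ]
    exact Nat.mul_le_mul ih (hd n)

lemma PP_pos {d : ℕ → ℕ} (hd : ∀ n, 2 ≤ d n) (n : ℕ) : 0 < PP d n :=
  lt_of_lt_of_le (by positivity) (two_pow_le hd n)

lemma PP_dvd (d : ℕ → ℕ) {n m : ℕ} (h : n ≤ m) : PP d n ∣ PP d m :=
  Finset.prod_dvd_prod_of_subset _ _ _ (Finset.range_mono h)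

lemma PP_le {d : ℕ → ℕ} (hd : ∀ n, 2 ≤ d n) {n m : ℕ} (h : n ≤ m) : PP d n ≤ PP d m :=
  Nat.le_of_dvd (PP_pos hd m) (PP_dvd d h)

open Classical in
/-- the last index with `D_n ≤ X` -/
noncomputable def lev (d : ℕ → ℕ) (X : ℝ) : ℕ :=
  Nat.findGreatest (fun n => (PP d n:ℝ) ≤ X) ⌈X⌉₊

lemma lev_spec (d : ℕ → ℕ) {X : ℝ} (hX : 1 ≤ X) : (PP d (lev d X):ℝ) ≤ X := by
  classical
  have h := @Nat.findGreatest_spec 0 (fun n => (PP d n:ℝ) ≤ X) _ ⌈X⌉₊ (Nat.zero_le _)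
    (by simp [PP_zero, hX])
  exact h

lemma le_lev {d : ℕ → ℕ} (hd : ∀ n, 2 ≤ d n) {X : ℝ} {n : ℕ} (h : (PP d n:ℝ) ≤ X) :
    n ≤ lev d X := by
  classical
  refine Nat.le_findGreatest ?_ h
  have h1 : n < 2^n := Nat.lt_two_pow_self
  have h2 : ((n:ℕ):ℝ) ≤ X := by
    have h3 : n ≤ PP d n := h1.le.trans (two_pow_le hd n)
    have h4 : (n:ℝ) ≤ (PP d n:ℝ) := by exact_mod_cast h3
    exact h4.trans h
  exact Nat.cast_le.1 (h2.trans (Nat.le_ceil X))

lemma lt_lev {d : ℕ → ℕ} (hd : ∀ n, 2 ≤ d n) {Mx : ℕ} (hM : ∀ n, d n ≤ Mx) (X : ℝ) :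
    X ≤ Mx * (PP d (lev d X):ℝ) := by
  by_contra hcon
  push Not at hcon
  have h1 : (PP d (lev d X + 1):ℝ) ≤ X := by
    rw [PP_succ]
    push_cast
    have : (PP d (lev d X):ℝ) * (d (lev d X):ℝ) ≤ (PP d (lev d X):ℝ) * Mx := by
      have h2 : ((d (lev d X):ℕ):ℝ) ≤ Mx := by exact_mod_cast hM _
      gcongr
    linarith
  have := le_lev hd h1
  omega

lemma lev_mono {d : ℕ → ℕ} (hd : ∀ n, 2 ≤ d n) {X X' : ℝ} (hX : 1 ≤ X) (h : X ≤ X') :
    lev d X ≤ lev d X' := le_lev hd ((lev_spec d hX).trans h)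

/-- the pseudo absolute value -/
noncomputable def AD (d : ℕ → ℕ) (q : ℕ) : ℝ :=
  sInf ((fun n : ℕ => (1 : ℝ) / (PP d n : ℝ)) '' {n : ℕ | PP d n ∣ q})

lemma AD_nonneg (d : ℕ → ℕ) (q : ℕ) : 0 ≤ AD d q := by
  refine Real.sInf_nonneg ?_
  rintro _ ⟨n, _, rfl⟩
  positivity

lemma dvd_of_AD_lt {d : ℕ → ℕ} (hd : ∀ n, 2 ≤ d n) {q : ℕ} {X : ℝ} (hX : 1 ≤ X)
    (h : AD d q < 1/X) : PP d (lev d X) ∣ q := by
  have hne : ((fun n : ℕ => (1 : ℝ) / (PP d n : ℝ)) '' {n : ℕ | PP d n ∣ q}).Nonempty :=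
    ⟨_, ⟨0, by simp [PP_zero], rfl⟩⟩
  obtain ⟨_, ⟨n, hn, rfl⟩, hlt⟩ := exists_lt_of_csInf_lt hne h
  simp only at hlt
  have hP : (0:ℝ) < (PP d n:ℝ) := by exact_mod_cast PP_pos hd n
  rw [one_div_lt_one_div hP (by linarith)] at hlt
  have h1 : lev d X ≤ n := by
    by_contra hcon
    push Not at hcon
    have h2 : PP d n ≤ PP d (lev d X) := PP_le hd hcon.le
    have h3 : (PP d n:ℝ) ≤ (PP d (lev d X):ℝ) := by exact_mod_cast h2
    have := lev_spec d hX
    linarith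
  exact (PP_dvd d h1).trans hn

/-- a system of threats with small weight, and what its avoidance gives -/
def System (L : ℕ) (e : ℝ) (C : ℝ → Prop) : Prop :=
  ∃ Thr : ℕ → Set (ℝ × ℝ),
    (∀ (n : ℕ) (x : ℝ), (∀ m < n, ∀ t ∈ Thr m, ¬ (|x - t.1| + rhoL L n ≤ t.2)) →
      Small (rhoL L n) {t | t ∈ Thr n ∧ |t.1 - x| < t.2 + rhoL L n} e) ∧
    ∀ ξ : ℝ, (∀ n, ∀ t ∈ Thr n, t.2 ≤ |ξ - t.1|) → C ξ

lemma System.and {L : ℕ} {e f : ℝ} {C C' : ℝ → Prop} (h : System L e C) (h' : System L f C') :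
    System L (e + f) (fun x => C x ∧ C' x) := by
  obtain ⟨T, h1, h2⟩ := h
  obtain ⟨T', h1', h2'⟩ := h'
  refine ⟨fun n => T n ∪ T' n, ?_, ?_⟩
  · intro n x hno
    have s1 := h1 n x (fun m hm t ht => hno m hm t (Or.inl ht))
    have s2 := h1' n x (fun m hm t ht => hno m hm t (Or.inr ht))
    refine (s1.union (rhoL_pos L n) s2).mono ?_ le_rfl
    rintro t ⟨ht | ht, hm⟩
    · exact Or.inl ⟨ht, hm⟩
    · exact Or.inr ⟨ht, hm⟩
  · intro ξ hξ
    exact ⟨h2 ξ (fun n t ht => hξ n t (Or.inl ht)), h2' ξ (fun n t ht => hξ n t (Or.inr ht))⟩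

lemma System.of_forall {L : ℕ} {e : ℝ} (he : 0 ≤ e) {C : ℝ → Prop} (h : ∀ x, C x) :
    System L e C := by
  refine ⟨fun _ => ∅, ?_, fun ξ _ => h ξ⟩
  intro n x _
  exact Small.empty.mono (by simp) he

lemma System.exists {L : ℕ} {e : ℝ} (he : e ≤ 1/8192) {C : ℝ → Prop} (h : System L e C) :
    ∃ x, C x := by
  obtain ⟨T, h1, h2⟩ := h
  obtain ⟨ξ, hξ⟩ := gameL L T (fun n x hno => (h1 n x hno).mono (fun t ht => ht) he)
  exact ⟨ξ, h2 ξ hξ⟩

lemma W_le_of_le {t s : ℝ} (ht : 0 ≤ t) (hs : 0 ≤ s) (h : t ≤ s^4) : W t ≤ s^3 := by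
  rw [← W_pow4 hs]
  exact W_mono ht h

lemma W_pow {s : ℝ} (hs : 0 ≤ s) (n : ℕ) : W (s^n) = (W s)^n := by
  induction n with
  | zero => simp [W_one]
  | succ n ih => rw [pow_succ, W_mul (by positivity) hs, ih, pow_succ]

lemma W_lt_one {t : ℝ} (h0 : 0 ≤ t) (h1 : t < 1) : W t < 1 :=
  Real.rpow_lt_one h0 h1 (by norm_num)

/-- one-variable good points -/
def Good1 (d : ℕ → ℕ) (i j x : ℝ) : Prop :=
  ∃ C0 : ℝ, 1 ≤ C0 ∧ ∀ (s : ℕ) (q p : ℤ), 0 < q → (2:ℝ)^s ≤ 2 * C0 * q → C0 * q < (2:ℝ)^s →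
    (PP d (lev d (((2:ℝ)^s)^i)) : ℤ) ∣ q → 1 ≤ |(q:ℝ) * x - p| * ((2:ℝ)^s)^j

theorem sys1 {d : ℕ → ℕ} (hd : ∀ n, 2 ≤ d n) {Mx : ℕ} (hM : ∀ n, d n ≤ Mx) {i j : ℝ}
    (hi : 0 ≤ i) (hj : 0 < j) (hij : i + j = 1) :
    ∃ L0, ∀ L, L0 ≤ L → System L (1/2^16) (Good1 d i j) := by
  classical
  have hMx : 2 ≤ Mx := (hd 0).trans (hM 0)
  have hΔ1 : (1:ℝ) ≤ (Mx:ℝ) := by exact_mod_cast (by omega : 1 ≤ Mx)
  obtain ⟨F, hF⟩ := exists_nat_ge (2^48 * (Mx:ℝ))
  obtain ⟨Δ, hΔ⟩ : ∃ Δ : ℝ, Δ = (Mx:ℝ) := ⟨_, rfl⟩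
  have hΔM : ∀ X : ℝ, X ≤ Δ * (PP d (lev d X):ℝ) := fun X => by rw [hΔ]; exact lt_lev hd hM X
  rw [← hΔ] at hF hΔ1
  have hF0 : (0:ℝ) < F := by nlinarith [show (0:ℝ) < 2^48 by positivity]
  have hF1 : (1:ℝ) ≤ F := by nlinarith [show (1:ℝ) ≤ 2^48 by norm_num]
  obtain ⟨L0, hL0⟩ := pow_unbounded_of_one_lt ((F:ℝ)^2) (show (1:ℝ) < 65536 by norm_num)
  refine ⟨L0, fun L hL => ?_⟩
  have hL' : (F:ℝ)^2 ≤ (65536:ℝ)^L :=
    hL0.le.trans (pow_le_pow_right₀ (by norm_num) hL)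
  -- data of the level s
  let N : ℕ → ℝ := fun s => (2:ℝ)^s
  let J : ℕ → ℝ := fun s => ((2:ℝ)^s)^j
  let D : ℕ → ℕ := fun s => PP d (lev d (((2:ℝ)^s)^i))
  have hN1 : ∀ s, 1 ≤ N s := fun s => one_le_pow₀ (by norm_num)
  have hJ1 : ∀ s, 1 ≤ J s := fun s => Real.one_le_rpow (hN1 s) hj.le
  have hI1 : ∀ s, 1 ≤ (N s)^i := fun s => Real.one_le_rpow (hN1 s) hi
  have hIJ : ∀ s, (N s)^i * J s = N s := by
    intro s
    show (N s)^i * (N s)^j = N s
    rw [← Real.rpow_add (lt_of_lt_of_le one_pos (hN1 s)), hij, Real.rpow_one]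
  have hDpos : ∀ s, 0 < D s := fun s => PP_pos hd _
  have hND : ∀ s, N s ≤ Δ * (D s:ℝ) * J s := by
    intro s
    have h1 : (N s)^i ≤ Δ * (D s:ℝ) := hΔM _
    have h2 := hJ1 s
    calc N s = (N s)^i * J s := (hIJ s).symm
      _ ≤ Δ * (D s:ℝ) * J s := by gcongr
  let τ : ℕ → ℝ := fun s => (F:ℝ)^2/(8 * Δ * (N s * J s))
  have hτ0 : ∀ s, 0 < τ s := by
    intro s
    have := hN1 s; have := hJ1 s
    show 0 < (F:ℝ)^2/(8 * Δ * (N s * J s))
    positivity
  have hτhalf : ∀ s, τ (s+1) ≤ τ s / 2 := by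
    intro s
    have h1 := hN1 s; have h2 := hJ1 s
    have h3 : N (s+1) = 2 * N s := by show (2:ℝ)^(s+1) = 2 * (2:ℝ)^s; ring
    have h4 : J s ≤ J (s+1) := by
      show (N s)^j ≤ (N (s+1))^j
      exact Real.rpow_le_rpow (by linarith) (by linarith) hj.le
    show (F:ℝ)^2/(8 * Δ * (N (s+1) * J (s+1))) ≤ (F:ℝ)^2/(8 * Δ * (N s * J s)) / 2
    rw [div_div]
    refine div_le_div_of_nonneg_left (by positivity) (by positivity) ?_
    rw [h3]
    calc 8 * Δ * (N s * J s) * 2 = 8 * Δ * (2 * N s * J s) := by ring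
      _ ≤ 8 * Δ * (2 * N s * J (s+1)) := by gcongr
  let ok : ℕ → ℝ → ℤ × ℤ → Prop := fun s ρ v =>
    0 < v.1 ∧ N s ≤ 2 * F * (D s * v.1) ∧ F * (D s * v.1) < N s ∧ ρ < τ s ∧ τ s ≤ 65536 * ρ
  let th : ℕ → ℤ × ℤ → ℝ × ℝ := fun s v => ((v.2:ℝ)/(D s * v.1), 2 * F/(N s * J s))
  refine ⟨fun n => {t | ∃ s v, ok s (rhoL L n) v ∧ t = th s v}, ?_, ?_⟩
  · intro n x _
    have hρ := rhoL_pos L n
    set ρ := rhoL L n with hρd
    obtain ⟨B, hB⟩ := pow_unbounded_of_one_lt ((F:ℝ)^2/ρ) (show (1:ℝ) < 2 by norm_num)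
    have key := class_sum2 hρ (B+1) (W (65536 * (16 * Δ/F))) 0 (W_nonneg (by positivity)) le_rfl
      one_pos (fun a b => b = 0 ∧ ρ < τ a ∧ τ a ≤ 65536 * ρ)
      (fun b U hU => window_card hρ τ hτhalf U (fun a ha => (hU a ha).2))
      (fun a _ => th a '' {v | ok a ρ v ∧ |(th a v).1 - x| < (th a v).2 + ρ})
      (by
        rintro a b ⟨rfl, h1, h2⟩
        rw [pow_zero, mul_one]
        have h := small_of_card' hρ {v | ok a ρ v ∧ |(th a v).1 - x| < (th a v).2 + ρ} (th a) 1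
          (65536 * (16 * Δ/F)) ?_ ?_ ?_ (by positivity)
        · simpa using h
        · -- at most one
          intro T hT hinj
          rw [Finset.card_le_one]
          intro v hv w hw
          by_contra hne
          obtain ⟨⟨a1, a2, a3, a4, a5⟩, a6⟩ := hT v hv
          obtain ⟨⟨b1, b2, b3, b4, b5⟩, b6⟩ := hT w hw
          have hDr : (0:ℝ) < (D a:ℝ) := by exact_mod_cast hDpos a
          have hv0 : (0:ℝ) < v.1 := by exact_mod_cast a1
          have hw0 : (0:ℝ) < w.1 := by exact_mod_cast b1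
          have hN0 : 0 < N a := lt_of_lt_of_le one_pos (hN1 a)
          have hJ0 : 0 < J a := lt_of_lt_of_le one_pos (hJ1 a)
          have hcross : v.2 * w.1 - w.2 * v.1 ≠ 0 := by
            intro h0
            refine hne (hinj (Finset.mem_coe.2 hv) (Finset.mem_coe.2 hw) ?_)
            have h0r : (v.2:ℝ) * w.1 - w.2 * v.1 = 0 := by exact_mod_cast h0
            show ((v.2:ℝ)/(D a * v.1), 2 * F/(N a * J a)) = ((w.2:ℝ)/(D a * w.1), 2 * F/(N a * J a))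
            rw [Prod.mk.injEq]
            refine ⟨?_, rfl⟩
            rw [div_eq_div_iff (by positivity) (by positivity)]
            linear_combination (D a:ℝ) * h0r
          have hc1 : (1:ℝ) ≤ |(v.2:ℝ) * w.1 - w.2 * v.1| := by
            have := Int.one_le_abs hcross
            exact_mod_cast this
          have hrad : 2 * F/(N a * J a) ≤ ρ := by
            have h3 : τ a ≤ 65536 * ρ := h2
            have h4 : 2 * F/(N a * J a) = τ a * (16 * Δ/F) := by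
              show 2 * F/(N a * J a) = (F:ℝ)^2/(8 * Δ * (N a * J a)) * (16 * Δ/F)
              field_simp; norm_num
            rw [h4]
            have h5 : 65536 * (16 * Δ/F) ≤ 1 := by
              rw [mul_div_assoc', div_le_one hF0]; nlinarith
            have h6 : 0 ≤ 16 * Δ/F := by positivity
            calc τ a * (16 * Δ/F) ≤ (65536 * ρ) * (16 * Δ/F) := by gcongr
              _ = ρ * (65536 * (16 * Δ/F)) := by ring
              _ ≤ ρ * 1 := by gcongr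
              _ = ρ := mul_one _
          have e1 : (th a v).2 = 2 * F/(N a * J a) := rfl
          have e2 : (th a w).2 = 2 * F/(N a * J a) := rfl
          rw [e1] at a6
          rw [e2] at b6
          have h3 : |(th a v).1 - (th a w).1| < 4 * ρ := by
            have := abs_sub_le (th a v).1 x (th a w).1
            rw [abs_sub_comm x] at this
            linarith
          have h4 : (th a v).1 - (th a w).1 =
              ((v.2:ℝ) * w.1 - w.2 * v.1)/(D a * v.1 * w.1) := by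
            show (v.2:ℝ)/(D a * v.1) - (w.2:ℝ)/(D a * w.1) = _
            field_simp
          rw [h4, abs_div, abs_of_pos (by positivity : (0:ℝ) < D a * v.1 * w.1),
            div_lt_iff₀ (by positivity)] at h3
          have h5 : (1:ℝ) < 4 * ρ * (D a * v.1 * w.1) := lt_of_le_of_lt hc1 h3
          have h6 : ρ * (8 * Δ * (N a * J a)) < (F:ℝ)^2 := by
            have h7 : ρ < (F:ℝ)^2/(8 * Δ * (N a * J a)) := a4
            rwa [lt_div_iff₀ (by positivity)] at h7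
          have h7 : (F:ℝ)^2 * (D a * v.1) * (D a * w.1) ≤ N a * N a := by
            calc (F:ℝ)^2 * (D a * v.1) * (D a * w.1) = (F * (D a * v.1)) * (F * (D a * w.1)) := by
                  ring
              _ ≤ N a * N a := by gcongr
          have h8 := hND a
          -- contradiction
          have h9 : (F:ℝ)^2 * (N a * N a) < (F:ℝ)^2 * (N a * N a) := by
            calc (F:ℝ)^2 * (N a * N a) = (F:ℝ)^2 * (N a * N a) * 1 := by ring
              _ < (F:ℝ)^2 * (N a * N a) * (4 * ρ * (D a * v.1 * w.1)) := by gcongr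
              _ = 4 * ρ * (N a * N a) * ((F:ℝ)^2 * (D a * v.1) * (w.1)) := by ring
              _ ≤ 4 * ρ * (N a * (Δ * (D a:ℝ) * J a)) * ((F:ℝ)^2 * (D a * v.1) * (w.1)) := by
                  gcongr
              _ = (1/2) * (ρ * (8 * Δ * (N a * J a))) *
                  ((F:ℝ)^2 * (D a * v.1) * (D a * w.1)) := by ring
              _ ≤ (1/2) * (F:ℝ)^2 * (N a * N a) := by gcongr
              _ ≤ (F:ℝ)^2 * (N a * N a) := by
                  have : 0 < (F:ℝ)^2 * (N a * N a) := by positivity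
                  linarith
          exact lt_irrefl _ h9
        · intro v hv
          have hN0 : 0 < N a := lt_of_lt_of_le one_pos (hN1 a)
          have hJ0 : 0 < J a := lt_of_lt_of_le one_pos (hJ1 a)
          show 0 < 2 * F/(N a * J a)
          positivity
        · intro v hv
          have hN0 : 0 < N a := lt_of_lt_of_le one_pos (hN1 a)
          have hJ0 : 0 < J a := lt_of_lt_of_le one_pos (hJ1 a)
          show 2 * F/(N a * J a)/ρ ≤ 65536 * (16 * Δ/F)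
          rw [div_le_iff₀ hρ]
          have h4 : 2 * F/(N a * J a) = τ a * (16 * Δ/F) := by
            show 2 * F/(N a * J a) = (F:ℝ)^2/(8 * Δ * (N a * J a)) * (16 * Δ/F)
            field_simp; norm_num
          rw [h4]
          calc τ a * (16 * Δ/F) ≤ (65536 * ρ) * (16 * Δ/F) := by gcongr
            _ = 65536 * (16 * Δ/F) * ρ := by ring)
    refine key.mono ?_ ?_
    · rintro t ⟨⟨s, v, hv, rfl⟩, hmeet⟩
      have hN0 : 0 < N s := lt_of_lt_of_le one_pos (hN1 s)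
      have hJ0 : 0 < J s := lt_of_lt_of_le one_pos (hJ1 s)
      refine ⟨s, ?_, 0, by simp, ⟨rfl, hv.2.2.2.1, hv.2.2.2.2⟩, v, ⟨hv, hmeet⟩, rfl⟩
      rw [Finset.mem_range]
      have h1 : ρ < (F:ℝ)^2/(8 * Δ * (N s * J s)) := hv.2.2.2.1
      rw [lt_div_iff₀ (by positivity)] at h1
      have h2 : ρ * N s < (F:ℝ)^2 := by
        refine lt_of_le_of_lt ?_ h1
        have h3 := hJ1 s
        calc ρ * N s = ρ * (1 * (N s * 1)) := by ring
          _ ≤ ρ * (8 * Δ * (N s * J s)) := by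
            have : (1:ℝ) ≤ 8 * Δ := by linarith
            gcongr
      have h3 : (2:ℝ)^s < 2^B := by
        rw [div_lt_iff₀ hρ] at hB
        have h4 : ρ * (2:ℝ)^s < ρ * 2^B := by
          calc ρ * (2:ℝ)^s < (F:ℝ)^2 := h2
            _ < 2^B * ρ := hB
            _ = ρ * 2^B := by ring
        exact lt_of_mul_lt_mul_left h4 hρ.le
      rw [pow_lt_pow_iff_right₀ (by norm_num)] at h3
      omega
    · have h1 : W (65536 * (16 * Δ/F)) ≤ (1/2^7)^3 := by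
        refine W_le_of_le (by positivity) (by norm_num) ?_
        rw [mul_div_assoc', div_le_iff₀ hF0]
        norm_num
        nlinarith
      rw [sub_zero, div_one]
      calc 16 * W (65536 * (16 * Δ/F)) ≤ 16 * (1/2^7)^3 := by gcongr
        _ ≤ 1/2^16 := by norm_num
  · intro ξ hξ
    refine ⟨F, hF1, ?_⟩
    intro s q p hq h1 h2 h3
    obtain ⟨q', hq'⟩ := h3
    have hN0 : 0 < N s := lt_of_lt_of_le one_pos (hN1 s)
    have hJ0 : 0 < J s := lt_of_lt_of_le one_pos (hJ1 s)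
    have hDr : (0:ℝ) < (D s:ℝ) := by exact_mod_cast hDpos s
    have hqr : (0:ℝ) < q := by exact_mod_cast hq
    have hqe : (q:ℝ) = (D s:ℝ) * q' := by rw [hq']; push_cast; rfl
    have hq'0 : (0:ℝ) < q' := by
      by_contra hneg
      push Not at hneg
      have : (D s:ℝ) * q' ≤ 0 := mul_nonpos_of_nonneg_of_nonpos hDr.le hneg
      linarith
    have hτL : τ s ≤ (65536:ℝ)^L := by
      refine le_trans ?_ hL'
      show (F:ℝ)^2/(8 * Δ * (N s * J s)) ≤ (F:ℝ)^2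
      refine div_le_self (by positivity) ?_
      have := hN1 s; have := hJ1 s
      calc (1:ℝ) = 1 * (1 * 1) := by norm_num
        _ ≤ 8 * Δ * (N s * J s) := by
          have : (1:ℝ) ≤ 8 * Δ := by linarith
          gcongr
    obtain ⟨n, hn1, hn2⟩ := exists_stageL L (τ s) (hτ0 s) hτL
    have h4 := hξ n (th s (q', p)) ⟨s, (q', p), ⟨by exact_mod_cast hq'0, by
      rw [← hqe]; exact h1, by rw [← hqe]; exact h2, hn1, hn2⟩, rfl⟩
    have h5 : 2 * F/(N s * J s) ≤ |ξ - (p:ℝ)/(D s * q')| := h4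
    rw [← hqe, div_le_iff₀ (by positivity)] at h5
    have e : (q:ℝ) * ξ - p = q * (ξ - p/q) := by field_simp
    rw [e, abs_mul, abs_of_pos hqr]
    show 1 ≤ q * |ξ - p/q| * J s
    have h6 : 2 * F * q ≤ (|ξ - (p:ℝ)/q| * (N s * J s)) * q := by gcongr
    have h7 : N s ≤ N s * (q * |ξ - p/q| * J s) := by
      calc N s ≤ 2 * F * q := h1
        _ ≤ (|ξ - (p:ℝ)/q| * (N s * J s)) * q := h6
        _ = N s * (q * |ξ - p/q| * J s) := by ring
    have h8 : N s * 1 ≤ N s * (q * |ξ - p/q| * J s) := by linarith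
    exact le_of_mul_le_mul_left h8 hN0

end Pool.Agent.H238R3.MS
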