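import Pool.Agent.H238R3.Fam3

set_option autoImplicit false

/-!
# Basic tools for the mixed sets
-/

namespace Pool.Agent.H238R3.MS

open Pool.Agent.H238R3.Lines Pool.Agent.H238R3.Game Pool.Agent.H238R3.Fam

/-- half lengths with a larger start -/
noncomputable def rhoL (L n : ℕ) : ℝ := (65536:ℝ)^L * rho n

lemma rhoL_pos (L n : ℕ) : 0 < rhoL L n := by
  have := rho_pos n
  unfold rhoL; positivity

lemma exists_stageL (L : ℕ) (τ : ℝ) (h0 : 0 < τ) (h1 : τ ≤ (65536:ℝ)^L) :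
    ∃ n, rhoL L n < τ ∧ τ ≤ 65536 * rhoL L n := by
  have hL : (0:ℝ) < (65536:ℝ)^L := by positivity
  obtain ⟨n, hn1, hn2⟩ := exists_stage (τ/(65536:ℝ)^L) (by positivity) ((div_le_one hL).2 h1)
  refine ⟨n, ?_, ?_⟩
  · rw [lt_div_iff₀ hL] at hn1
    unfold rhoL; linarith
  · rw [div_le_iff₀ hL] at hn2
    unfold rhoL; linarith

lemma stage_ltL {L m n : ℕ} {τ : ℝ} (h1 : τ ≤ 65536 * rhoL L m) (h2 : 65536 * rhoL L n < τ) :
    m < n := by
  have hL : (0:ℝ) < (65536:ℝ)^L := by positivity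
  by_contra h
  push Not at h
  have h3 : rho m ≤ rho n := by
    unfold rho
    exact pow_le_pow_of_le_one (by norm_num) (by norm_num) h
  have h4 : rhoL L m ≤ rhoL L n := by
    unfold rhoL
    exact mul_le_mul_of_nonneg_left h3 hL.le
  linarith

theorem gameL (L : ℕ) (Thr : ℕ → Set (ℝ × ℝ))
    (hfin : ∀ (n : ℕ) (x : ℝ),
      (∀ m < n, ∀ t ∈ Thr m, ¬ (|x - t.1| + rhoL L n ≤ t.2)) →
      Small (rhoL L n) {t | t ∈ Thr n ∧ |t.1 - x| < t.2 + rhoL L n} (1/8192)) :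
    ∃ ξ : ℝ, ∀ n, ∀ t ∈ Thr n, t.2 ≤ |ξ - t.1| := by
  classical
  set Λ : ℝ := (65536:ℝ)^L with hΛ
  have hΛ0 : 0 < Λ := by rw [hΛ]; positivity
  have hr : ∀ n, rhoL L n = Λ * rho n := fun n => rfl
  obtain ⟨ξ, hξ⟩ := game (fun n => {t | (Λ * t.1, Λ * t.2) ∈ Thr n}) (by
    intro n x hno
    have h1 := hfin n (Λ * x) (by
      intro m hm t ht hcon
      refine hno m hm (t.1/Λ, t.2/Λ) ?_ ?_
      · show (Λ * (t.1/Λ), Λ * (t.2/Λ)) ∈ Thr m
        rw [mul_div_cancel₀ _ hΛ0.ne', mul_div_cancel₀ _ hΛ0.ne']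
        exact ht
      · simp only
        rw [hr] at hcon
        have e : x - t.1/Λ = (Λ * x - t.1)/Λ := by field_simp
        rw [e, abs_div, abs_of_pos hΛ0, div_add' _ _ _ hΛ0.ne']
        refine div_le_div_of_nonneg_right ?_ hΛ0.le
        linarith)
    obtain ⟨F, hF1, hF2, hF3⟩ := h1
    refine ⟨F.image (fun t => (t.1/Λ, t.2/Λ)), ?_, ?_, ?_⟩
    · rintro t ⟨ht, hmeet⟩
      rw [Finset.mem_image]
      refine ⟨(Λ * t.1, Λ * t.2), hF1 _ ⟨ht, ?_⟩, ?_⟩
      · simp only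
        rw [hr]
        have e : Λ * t.1 - Λ * x = Λ * (t.1 - x) := by ring
        rw [e, abs_mul, abs_of_pos hΛ0]
        nlinarith
      · simp only
        rw [mul_div_cancel_left₀ _ hΛ0.ne', mul_div_cancel_left₀ _ hΛ0.ne']
    · intro t ht
      obtain ⟨s, hs, rfl⟩ := Finset.mem_image.1 ht
      exact div_pos (hF2 s hs) hΛ0
    · rw [Finset.sum_image]
      · refine le_trans (le_of_eq ?_) hF3
        refine Finset.sum_congr rfl (fun t _ => ?_)
        simp only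
        rw [hr, div_div]
      · intro a _ b _ hab
        simp only [Prod.mk.injEq] at hab
        have e1 : a.1 = b.1 := by
          have := hab.1
          field_simp at this
          exact this
        have e2 : a.2 = b.2 := by
          have := hab.2
          field_simp at this
          exact this
        exact Prod.ext e1 e2)
  refine ⟨Λ * ξ, fun n t ht => ?_⟩
  have h2 := hξ n (t.1/Λ, t.2/Λ) (by
    show (Λ * (t.1/Λ), Λ * (t.2/Λ)) ∈ Thr n
    rw [mul_div_cancel₀ _ hΛ0.ne', mul_div_cancel₀ _ hΛ0.ne']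
    exact ht)
  simp only at h2
  have e : ξ - t.1/Λ = (Λ * ξ - t.1)/Λ := by field_simp
  rw [e, abs_div, abs_of_pos hΛ0] at h2
  exact (div_le_div_iff_of_pos_right hΛ0).1 h2

/-- a set of threats indexed by vectors, such that no finite set of vectors with different threats
has more than `M` elements -/
lemma small_of_card' {ρ : ℝ} (hρ : 0 < ρ) {V : Type*} (S : Set V) (f : V → ℝ × ℝ) (M : ℕ) (τ : ℝ)
    (hcard : ∀ T : Finset V, (∀ v ∈ T, v ∈ S) → Set.InjOn f (T : Set V) → T.card ≤ M)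
    (hpos : ∀ v ∈ S, 0 < (f v).2) (hrel : ∀ v ∈ S, (f v).2 / ρ ≤ τ) (hτ : 0 ≤ τ) :
    Small ρ (f '' S) (M * W τ) := by
  classical
  have key : ∀ U : Finset (ℝ × ℝ), (∀ t ∈ U, t ∈ f '' S) → U.card ≤ M := by
    intro U hU
    rcases isEmpty_or_nonempty V with hV | hV
    · have : U = ∅ := by
        rw [Finset.eq_empty_iff_forall_notMem]
        intro t ht
        obtain ⟨v, _, _⟩ := hU t ht
        exact hV.elim v
      rw [this]; simp
    choose! g hg1 hg2 using hU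
    have h1 := hcard (U.image g) (by
      intro v hv
      obtain ⟨t, ht, rfl⟩ := Finset.mem_image.1 hv
      exact hg1 t ht) (by
      intro a ha b hb hab
      obtain ⟨t, ht, rfl⟩ := Finset.mem_image.1 (Finset.mem_coe.1 ha)
      obtain ⟨s, hs, rfl⟩ := Finset.mem_image.1 (Finset.mem_coe.1 hb)
      rw [hg2 t ht, hg2 s hs] at hab
      rw [hab])
    rw [Finset.card_image_of_injOn] at h1
    · exact h1
    · intro a ha b hb hab
      have := congrArg f hab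
      rw [hg2 a ha, hg2 b hb] at this
      exact this
  have h := small_of_card hρ (f '' S) id M τ (fun T hT => key T hT)
    (by rintro _ ⟨v, hv, rfl⟩; exact hpos v hv) (by rintro _ ⟨v, hv, rfl⟩; exact hrel v hv) hτ
  rw [Set.image_id] at h
  exact h

theorem lines' (x ρ α γ Y s0 s1 : ℝ) (hρ : 0 ≤ ρ) (hY : 0 ≤ Y) (hs0 : 0 < s0)
    (hdet : 12 * ρ * s1^2 * Y < 1)
    (T : Finset (ℤ × ℤ × ℤ)) (M : ℕ) (hM : 0 < M) (hT : T.card = M + 1)
    (hpar : ∀ z ∈ T, ∀ z' ∈ T, z ≠ z' → ¬ (z.2.1 * z'.2.2 - z.2.2 * z'.2.1 = 0 ∧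
      z.2.2 * z'.1 - z.1 * z'.2.2 = 0 ∧ z.1 * z'.2.1 - z.2.1 * z'.1 = 0))
    (hs : ∀ z ∈ T, s0 ≤ (z.1:ℝ) ∧ (z.1:ℝ) ≤ s1)
    (ht : ∀ z ∈ T, |(z.2.1:ℝ) - α * z.1| ≤ Y)
    (hu : ∀ z ∈ T, |(z.2.2:ℝ) - γ * z.2.1 - x * z.1| ≤ 2 * ρ * z.1) :
    ∃ w : ℤ × ℤ × ℤ, Prim w ∧ (∀ z ∈ T, w.1 * z.1 + w.2.1 * z.2.1 + w.2.2 * z.2.2 = 0) ∧
      M * |(w.2.2:ℝ)| ≤ 2 * Y * s1^2 / s0 ∧
      M * |(w.2.1:ℝ) + γ * w.2.2| ≤ 4 * ρ * s1^2 ∧
      ∀ x' : ℝ, |x' - x| ≤ ρ →
        M * |(w.1:ℝ) + α * w.2.1 + (x' + α * γ) * w.2.2| ≤ 10 * ρ * Y * s1^2 / s0 := by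
  classical
  obtain ⟨z1, hz1, z2, hz2, hne⟩ := Finset.one_lt_card.1 (show 1 < T.card by omega)
  have hpos : ∀ z ∈ T, 0 < z.1 := by
    intro z hz
    have := (hs z hz).1
    have h2 : (0:ℝ) < (z.1:ℝ) := by linarith
    exact_mod_cast h2
  have hs1pos : 0 < s1 := by
    have := hs z1 hz1
    linarith
  -- the primitive normal
  have hc0 : ¬ (z1.2.1 * z2.2.2 - z1.2.2 * z2.2.1 = 0 ∧ z1.2.2 * z2.1 - z1.1 * z2.2.2 = 0 ∧
      z1.1 * z2.2.1 - z1.2.1 * z2.1 = 0) := hpar z1 hz1 z2 hz2 hne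
  obtain ⟨g, w, hg, hw, hc1, hc2, hc3⟩ := exists_prim _ _ _ hc0
  have hort : ∀ z ∈ T, w.1 * z.1 + w.2.1 * z.2.1 + w.2.2 * z.2.2 = 0 := by
    intro z hz
    have key : ∀ z ∈ T, |(z.1:ℝ)| ≤ s1 ∧ |(z.2.1:ℝ) - α * z.1| ≤ Y ∧
        |(z.2.2:ℝ) - γ * z.2.1 - x * z.1| ≤ 2 * ρ * s1 := by
      intro z hz
      have h1 := hs z hz
      refine ⟨?_, ht z hz, ?_⟩
      · rw [abs_le]; constructor <;> linarith
      · refine (hu z hz).trans ?_
        have : 0 ≤ 2 * ρ := by linarith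
        nlinarith
    have k0 := key z hz
    have k1 := key z1 hz1
    have k2 := key z2 hz2
    have hd := det_zero x α γ Y s1 (2 * ρ * s1) (by nlinarith) z z1 z2 k0.1 k1.1 k2.1 k0.2.1 k1.2.1
      k2.2.1 k0.2.2 k1.2.2 k2.2.2
    rw [hc1, hc2, hc3] at hd
    have : g * (w.1 * z.1 + w.2.1 * z.2.1 + w.2.2 * z.2.2) = 0 := by linear_combination hd
    rcases mul_eq_zero.1 this with h | h
    · omega
    · exact h
  -- cross products are non zero multiples of w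
  have hcross : ∀ z ∈ T, ∀ z' ∈ T, z ≠ z' → ∃ k : ℤ, 1 ≤ |(k:ℝ)| ∧
      z.2.2 * z'.1 - z.1 * z'.2.2 = k * w.2.1 ∧ z.1 * z'.2.1 - z.2.1 * z'.1 = k * w.2.2 := by
    intro z hz z' hz' hzz
    obtain ⟨a, b, c, habc⟩ := hw
    have o1 := hort z hz
    have o2 := hort z' hz'
    have hp := hpar z hz z' hz' hzz
    set c1 := z.2.1 * z'.2.2 - z.2.2 * z'.2.1 with hc1'
    set c2 := z.2.2 * z'.1 - z.1 * z'.2.2 with hc2'
    set c3 := z.1 * z'.2.1 - z.2.1 * z'.1 with hc3'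
    have f3 : c1 * w.2.1 - c2 * w.1 = 0 := by
      rw [hc1', hc2']; linear_combination z'.2.2 * o1 - z.2.2 * o2
    have f2 : c1 * w.2.2 - c3 * w.1 = 0 := by
      rw [hc1', hc3']; linear_combination (-z'.2.1) * o1 + z.2.1 * o2
    have f1 : c2 * w.2.2 - c3 * w.2.1 = 0 := by
      rw [hc2', hc3']; linear_combination z'.1 * o1 - z.1 * o2
    refine ⟨a * c1 + b * c2 + c * c3, ?_, ?_, ?_⟩
    · have g1 : c1 = (a * c1 + b * c2 + c * c3) * w.1 := by
        linear_combination (-c1) * habc + b * f3 + c * f2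
      have g2 : c2 = (a * c1 + b * c2 + c * c3) * w.2.1 := by
        linear_combination (-c2) * habc - a * f3 + c * f1
      have g3 : c3 = (a * c1 + b * c2 + c * c3) * w.2.2 := by
        linear_combination (-c3) * habc - a * f2 - b * f1
      have hk : a * c1 + b * c2 + c * c3 ≠ 0 := by
        intro h0
        rw [h0, zero_mul] at g1 g2 g3
        exact hp ⟨g1, g2, g3⟩
      have := Int.one_le_abs hk
      exact_mod_cast this
    · linear_combination (-c2) * habc - a * f3 + c * f1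
    · linear_combination (-c3) * habc - a * f2 - b * f1
  -- first bound
  have hb1 : M * |(w.2.2:ℝ)| ≤ 2 * Y * s1^2 / s0 := by
    have h := gap T (fun z => (z.2.1:ℝ)/z.1) (α - Y/s0) (2*Y/s0) (|(w.2.2:ℝ)|/s1^2)
      (by positivity) M hT ?_ ?_
    · have h2 : (M:ℝ) * |(w.2.2:ℝ)| = (M * (|(w.2.2:ℝ)|/s1^2)) * s1^2 := by field_simp
      rw [h2]
      calc (M * (|(w.2.2:ℝ)|/s1^2)) * s1^2 ≤ 2*Y/s0 * s1^2 :=
            mul_le_mul_of_nonneg_right h (by positivity)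
        _ = 2 * Y * s1^2 / s0 := by ring
    · intro z hz
      have h1 := hs z hz
      have hzp : (0:ℝ) < z.1 := by linarith
      have h2 := ht z hz
      have h3 : |(z.2.1:ℝ)/z.1 - α| ≤ Y/s0 := by
        have e : (z.2.1:ℝ)/z.1 - α = ((z.2.1:ℝ) - α * z.1)/z.1 := by field_simp
        rw [e, abs_div, abs_of_pos hzp]
        exact div_le_div₀ hY h2 hs0 h1.1
      rw [abs_le] at h3
      constructor
      · linarith
      · have : 2*Y/s0 = Y/s0 + Y/s0 := by ring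
        rw [this]; linarith
    · intro z hz z' hz' hzz
      obtain ⟨k, hk, _, h3⟩ := hcross z hz z' hz' hzz
      have h1 := hs z hz
      have h1' := hs z' hz'
      have hzp : (0:ℝ) < z.1 := by linarith
      have hzp' : (0:ℝ) < z'.1 := by linarith
      have e : (z.2.1:ℝ)/z.1 - (z'.2.1:ℝ)/z'.1 = -((k:ℝ) * w.2.2)/(z.1 * z'.1) := by
        have h3r : (z.1:ℝ) * z'.2.1 - z.2.1 * z'.1 = k * w.2.2 := by exact_mod_cast h3
        rw [← h3r]; field_simp; ring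
      rw [e, abs_div, abs_neg, abs_mul, abs_of_pos (mul_pos hzp hzp')]
      refine div_le_div₀ (by positivity) ?_ (by positivity) ?_
      · have := abs_nonneg (w.2.2:ℝ)
        nlinarith
      · nlinarith
  have hb2 : M * |(w.2.1:ℝ) + γ * w.2.2| ≤ 4 * ρ * s1^2 := by
    have h := gap T (fun z => ((z.2.2:ℝ) - γ * z.2.1)/z.1) (x - 2*ρ) (4*ρ)
      (|(w.2.1:ℝ) + γ * w.2.2|/s1^2) (by positivity) M hT ?_ ?_
    · have h2 : (M:ℝ) * |(w.2.1:ℝ) + γ * w.2.2| =
          (M * (|(w.2.1:ℝ) + γ * w.2.2|/s1^2)) * s1^2 := by field_simp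
      rw [h2]
      exact mul_le_mul_of_nonneg_right h (by positivity)
    · intro z hz
      have h1 := hs z hz
      have hzp : (0:ℝ) < z.1 := by linarith
      have h2 := hu z hz
      have h3 : |((z.2.2:ℝ) - γ * z.2.1)/z.1 - x| ≤ 2 * ρ := by
        have e : ((z.2.2:ℝ) - γ * z.2.1)/z.1 - x = ((z.2.2:ℝ) - γ * z.2.1 - x * z.1)/z.1 := by
          field_simp
        rw [e, abs_div, abs_of_pos hzp, div_le_iff₀ hzp]
        exact h2
      rw [abs_le] at h3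
      constructor <;> linarith
    · intro z hz z' hz' hzz
      obtain ⟨k, hk, h2, h3⟩ := hcross z hz z' hz' hzz
      have h1 := hs z hz
      have h1' := hs z' hz'
      have hzp : (0:ℝ) < z.1 := by linarith
      have hzp' : (0:ℝ) < z'.1 := by linarith
      have e : ((z.2.2:ℝ) - γ * z.2.1)/z.1 - ((z'.2.2:ℝ) - γ * z'.2.1)/z'.1 =
          ((k:ℝ) * ((w.2.1:ℝ) + γ * w.2.2))/(z.1 * z'.1) := by
        have h2r : (z.2.2:ℝ) * z'.1 - z.1 * z'.2.2 = k * w.2.1 := by exact_mod_cast h2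
        have h3r : (z.1:ℝ) * z'.2.1 - z.2.1 * z'.1 = k * w.2.2 := by exact_mod_cast h3
        have h4r : (k:ℝ) * ((w.2.1:ℝ) + γ * w.2.2) = ((z.2.2:ℝ) * z'.1 - z.1 * z'.2.2) +
          γ * ((z.1:ℝ) * z'.2.1 - z.2.1 * z'.1) := by rw [h2r, h3r]; ring
        rw [h4r]; field_simp; ring
      rw [e, abs_div, abs_mul, abs_of_pos (mul_pos hzp hzp')]
      refine div_le_div₀ (by positivity) ?_ (by positivity) ?_
      · have := abs_nonneg ((w.2.1:ℝ) + γ * w.2.2)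
        nlinarith
      · nlinarith
  refine ⟨w, hw, hort, hb1, hb2, ?_⟩
  intro x' hx'
  have h1 := hs z1 hz1
  have hzp : (0:ℝ) < z1.1 := by linarith
  have o1 : (w.1:ℝ) * z1.1 + w.2.1 * z1.2.1 + w.2.2 * z1.2.2 = 0 := by exact_mod_cast hort z1 hz1
  have e : (w.1:ℝ) + α * w.2.1 + (x' + α * γ) * w.2.2 =
      -(((w.2.1:ℝ) + γ * w.2.2) * ((z1.2.1:ℝ)/z1.1 - α)) +
      (w.2.2:ℝ) * (x' - ((z1.2.2:ℝ) - γ * z1.2.1)/z1.1) := by
    have : (w.1:ℝ) = -(w.2.1 * z1.2.1 + w.2.2 * z1.2.2)/z1.1 := by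
      field_simp; linarith
    rw [this]; field_simp; ring
  have k1 : |(z1.2.1:ℝ)/z1.1 - α| ≤ Y/s0 := by
    have e : (z1.2.1:ℝ)/z1.1 - α = ((z1.2.1:ℝ) - α * z1.1)/z1.1 := by field_simp
    rw [e, abs_div, abs_of_pos hzp]
    exact div_le_div₀ hY (ht z1 hz1) hs0 h1.1
  have k2 : |x' - ((z1.2.2:ℝ) - γ * z1.2.1)/z1.1| ≤ 3 * ρ := by
    have h3 : |x - ((z1.2.2:ℝ) - γ * z1.2.1)/z1.1| ≤ 2 * ρ := by
      rw [abs_sub_comm]
      have e : ((z1.2.2:ℝ) - γ * z1.2.1)/z1.1 - x = ((z1.2.2:ℝ) - γ * z1.2.1 - x * z1.1)/z1.1 := by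
        field_simp
      rw [e, abs_div, abs_of_pos hzp, div_le_iff₀ hzp]
      exact hu z1 hz1
    have := abs_sub_le x' x (((z1.2.2:ℝ) - γ * z1.2.1)/z1.1)
    linarith
  rw [e]
  have hM0 : (0:ℝ) ≤ M := Nat.cast_nonneg M
  calc (M:ℝ) * |-(((w.2.1:ℝ) + γ * w.2.2) * ((z1.2.1:ℝ)/z1.1 - α)) +
      (w.2.2:ℝ) * (x' - ((z1.2.2:ℝ) - γ * z1.2.1)/z1.1)|
      ≤ M * (|(w.2.1:ℝ) + γ * w.2.2| * |(z1.2.1:ℝ)/z1.1 - α| +
        |(w.2.2:ℝ)| * |x' - ((z1.2.2:ℝ) - γ * z1.2.1)/z1.1|) := by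
        refine mul_le_mul_of_nonneg_left ?_ hM0
        refine (abs_add_le _ _).trans ?_
        rw [abs_neg, abs_mul, abs_mul]
    _ = (M * |(w.2.1:ℝ) + γ * w.2.2|) * |(z1.2.1:ℝ)/z1.1 - α| +
        (M * |(w.2.2:ℝ)|) * |x' - ((z1.2.2:ℝ) - γ * z1.2.1)/z1.1| := by ring
    _ ≤ (4 * ρ * s1^2) * (Y/s0) + (2 * Y * s1^2 / s0) * (3 * ρ) := by
        refine add_le_add ?_ ?_
        · exact mul_le_mul hb2 k1 (abs_nonneg _) (by positivity)
        · exact mul_le_mul hb1 k2 (abs_nonneg _) (by positivity)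
    _ = 10 * ρ * Y * s1^2 / s0 := by ring

/-- windows: a sequence at least halving at each step is in `(ρ, 65536 ρ]` at most 16 times -/
lemma window_card {ρ : ℝ} (hρ : 0 < ρ) (t : ℕ → ℝ) (hdec : ∀ a, t (a+1) ≤ t a / 2)
    (U : Finset ℕ) (hU : ∀ a ∈ U, ρ < t a ∧ t a ≤ 65536 * ρ) : U.card ≤ 16 := by
  classical
  have hdeck : ∀ a k, t (a+k) * 2^k ≤ t a := by
    intro a k
    induction k with
    | zero => simp
    | succ k ih =>
      have h1 := hdec (a+k)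
      have h2 : t (a+(k+1)) * 2^(k+1) ≤ t (a+k) * 2^k := by
        rw [← add_assoc, pow_succ]
        have h3 : (0:ℝ) < 2^k := by positivity
        nlinarith
      exact h2.trans ih
  rcases U.eq_empty_or_nonempty with h | h
  · rw [h]; simp
  · have hsub : U ⊆ Finset.Ico (U.min' h) (U.min' h + 16) := by
      intro i hi
      rw [Finset.mem_Ico]
      have h1 : U.min' h ≤ i := Finset.min'_le U i hi
      refine ⟨h1, ?_⟩
      by_contra hge
      push Not at hge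
      obtain ⟨k, hk⟩ := Nat.exists_eq_add_of_le h1
      have h2 := hdeck (U.min' h) k
      rw [← hk] at h2
      have h3 := (hU i hi).1
      have h4 := (hU _ (U.min'_mem h)).2
      have h5 : (2:ℝ)^16 ≤ 2^k := pow_le_pow_right₀ (by norm_num) (by omega)
      nlinarith
    refine (Finset.card_le_card hsub).trans ?_
    simp

/-- the same for sequences at least doubling -/
lemma window_card' {ρ : ℝ} (hρ : 0 < ρ) (t : ℕ → ℝ) (hinc : ∀ a, 2 * t a ≤ t (a+1))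
    (U : Finset ℕ) (hU : ∀ a ∈ U, ρ < t a ∧ t a ≤ 65536 * ρ) : U.card ≤ 16 := by
  classical
  have hinck : ∀ a k, t a * 2^k ≤ t (a+k) := by
    intro a k
    induction k with
    | zero => simp
    | succ k ih =>
      have h1 := hinc (a+k)
      have h2 : t (a+(k+1)) = t (a+k+1) := by rw [add_assoc]
      rw [h2, pow_succ]
      nlinarith
  rcases U.eq_empty_or_nonempty with h | h
  · rw [h]; simp
  · have hsub : U ⊆ Finset.Ico (U.min' h) (U.min' h + 16) := by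
      intro i hi
      rw [Finset.mem_Ico]
      have h1 : U.min' h ≤ i := Finset.min'_le U i hi
      refine ⟨h1, ?_⟩
      by_contra hge
      push Not at hge
      obtain ⟨k, hk⟩ := Nat.exists_eq_add_of_le h1
      have h2 := hinck (U.min' h) k
      rw [← hk] at h2
      have h3 := (hU i hi).2
      have h4 := (hU _ (U.min'_mem h)).1
      have h5 : (2:ℝ)^16 ≤ 2^k := pow_le_pow_right₀ (by norm_num) (by omega)
      nlinarith
    refine (Finset.card_le_card hsub).trans ?_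
    simp

/-- sum over two-parameter classes -/
lemma class_sum2 {ρ : ℝ} (hρ : 0 < ρ) (I : ℕ) (e lam : ℝ) (he : 0 ≤ e) (h0 : 0 ≤ lam)
    (h1 : lam < 1) (act : ℕ → ℕ → Prop)
    (hact : ∀ b, ∀ U : Finset ℕ, (∀ a ∈ U, act a b) → U.card ≤ 16)
    (S : ℕ → ℕ → Set (ℝ × ℝ))
    (hS : ∀ a b, act a b → Small ρ (S a b) (e * lam^b)) :
    Small ρ {p | ∃ a ∈ Finset.range I, ∃ b ∈ Finset.range I, act a b ∧ p ∈ S a b}
      (16 * e / (1 - lam)) := by
  classical
  have hl : ∀ b ∈ Finset.range I, Small ρ {p | ∃ a ∈ (Finset.range I).filter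
      (fun a => act a b), p ∈ S a b} (16 * e * lam^b) := by
    intro b _
    refine (Small.biUnion hρ ((Finset.range I).filter (fun a => act a b))
      (fun a => S a b) (fun _ => e * lam^b) ?_).mono (fun t ht => ht) ?_
    · intro a ha
      exact hS a b (Finset.mem_filter.1 ha).2
    · rw [Finset.sum_const, nsmul_eq_mul]
      have h2 : (((Finset.range I).filter (fun a => act a b)).card : ℝ) ≤ 16 := by
        exact_mod_cast hact b _ (fun a ha => (Finset.mem_filter.1 ha).2)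
      have h3 : 0 ≤ e * lam^b := by positivity
      nlinarith
  refine (Small.biUnion hρ (Finset.range I) _ _ hl).mono ?_ ?_
  · rintro p ⟨a, ha, b, hb, h2, h3⟩
    exact ⟨b, hb, a, Finset.mem_filter.2 ⟨ha, h2⟩, h3⟩
  · rw [← Finset.mul_sum]
    have h2 : ∑ b ∈ Finset.range I, lam^b ≤ 1/(1-lam) := by
      have h3 : (∑ b ∈ Finset.range I, lam^b) * (1 - lam) = 1 - lam^I := by
        have := geom_sum_mul lam I
        linarith
      rw [le_div_iff₀ (by linarith), h3]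
      have : 0 ≤ lam^I := by positivity
      linarith
    calc 16 * e * ∑ b ∈ Finset.range I, lam^b ≤ 16 * e * (1/(1-lam)) := by gcongr
      _ = 16 * e / (1 - lam) := by ring

end Pool.Agent.H238R3.MS
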