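import Pool.Agent.H238R3.MS.PD

set_option autoImplicit false

/-!
# Counting lines for the mixed sets
-/

namespace Pool.Agent.H238R3.MS

open Pool.Agent.H238R3.Lines Pool.Agent.H238R3.Game Pool.Agent.H238R3.Fam

/-- `HP`: no threat of an integer point `(q, p, p')` with `D ∣ q`, `q` small and `|qx - p|` small,
belonging to a level `N1` below, contains the interval. The level `N1` is `2^s`, and its data
`J1, K1` are compared with those of the level `N`. -/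
theorem cardD3 (x y ρ N I J K u uk : ℝ) (D F : ℕ) (hρ : 0 < ρ) (hN : N = I * J * K)
    (hI : 1 ≤ I) (hJ : 1 ≤ J) (hK : 1 ≤ K) (hu : 1 ≤ u) (huk : 1 ≤ uk) (huku : uk ≤ u)
    (hD : 0 < D) (hDI : (D:ℝ) ≤ I) (hF : 2^30 ≤ (F:ℝ))
    (HP : ∀ (q p p' : ℤ), 0 < q → (D:ℤ) ∣ q → (q:ℝ) * (u * (F:ℝ)^33) ≤ 4 * N →
      |(p:ℝ) - q * x| * J ≤ 1 → (∀ y', |y' - y| ≤ ρ → |(p':ℝ) - q * y'| * K ≤ uk) → False)
    (T : Finset (ℤ × ℤ × ℤ)) (hinj : Set.InjOn (thD3 x D N K u ((F:ℝ)^17)) (T : Set (ℤ × ℤ × ℤ)))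
    (hT : ∀ w ∈ T, okD3 ρ N J K u uk ((F:ℝ)^11) w ∧
      |(thD3 x D N K u ((F:ℝ)^17) w).1 - y| < (thD3 x D N K u ((F:ℝ)^17) w).2 + ρ) :
    T.card ≤ F^11 := by
  have hI0 : 0 < I := by linarith
  have hJ0 : 0 < J := by linarith
  have hK0 : 0 < K := by linarith
  have hu0 : 0 < u := by linarith
  have huk0 : 0 < uk := by linarith
  have hN0 : 0 < N := by rw [hN]; positivity
  have hDr : (0:ℝ) < D := by exact_mod_cast hD
  have hF0 : (0:ℝ) < F := by linarith [show (0:ℝ) < 2^30 by positivity]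
  have hF1 : (1:ℝ) ≤ F := by linarith [show (1:ℝ) ≤ 2^30 by norm_num]
  have hF0n : 0 < F := by exact_mod_cast hF0
  by_contra hcon
  push Not at hcon
  obtain ⟨T', hT', hcard⟩ := Finset.exists_subset_card_eq (show F^11 + 1 ≤ T.card by omega)
  obtain ⟨v0, hv0⟩ : T'.Nonempty := by
    rw [← Finset.card_pos]; omega
  have hMr : ((F^11 : ℕ):ℝ) = (F:ℝ)^11 := by push_cast; ring
  obtain ⟨f, hf⟩ : ∃ f : ℝ, f = (F:ℝ) := ⟨_, rfl⟩
  rw [← hf] at hF HP hF0 hF1 hMr hT hinj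
  set M : ℝ := f^11 with hM
  have hM0 : 0 < M := by rw [hM]; positivity
  have hM1 : 1 ≤ M := by rw [hM]; exact one_le_pow₀ hF1
  -- bound on ρ
  have hρN : 24 * ρ * (N * K) < M^3 * u * uk := by
    have := (hT v0 (hT' hv0)).1.2.2.2.2.1
    rw [lt_div_iff₀ (by positivity)] at this
    linarith
  have hρ2 : M^3 * u * uk ≤ 65536 * (24 * ρ * (N * K)) := by
    have := (hT v0 (hT' hv0)).1.2.2.2.2.2
    rw [div_le_iff₀ (by positivity)] at this
    linarith
  have hth2 : ∀ v, (thD3 x D N K u (f^17) v).2 = 2*u*f^17/(N*K) := fun v => rfl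
  have hthle : 2*u*f^17/(N*K) ≤ ρ := by
    rw [div_le_iff₀ (by positivity)]
    have h0 : (65536 * 48:ℝ) ≤ f^16 := by
      calc (65536 * 48:ℝ) ≤ 2^30 := by norm_num
        _ ≤ f := hF
        _ = f^1 := (pow_one _).symm
        _ ≤ f^16 := pow_le_pow_right₀ hF1 (by norm_num)
    have h1 : (65536 * 24) * (2*u*f^17) ≤ (65536 * 24) * (ρ * (N * K)) := by
      calc (65536 * 24) * (2*u*f^17) = (65536 * 48) * f^17 * u * 1 := by ring
        _ ≤ f^16 * f^17 * u * uk := by gcongr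
        _ = M^3 * u * uk := by rw [hM]; ring
        _ ≤ 65536 * (24 * ρ * (N * K)) := hρ2
        _ = (65536 * 24) * (ρ * (N * K)) := by ring
    exact le_of_mul_le_mul_left h1 (by positivity)
  have hfacts : ∀ w ∈ T', K/(2*u*M) ≤ (w.1:ℝ) ∧ (w.1:ℝ) ≤ K/(u*M) ∧
      |(w.2.1:ℝ) - 0 * w.1| ≤ J/M ∧
      |(w.2.2:ℝ) - (D * x) * w.2.1 - (D * y) * w.1| ≤ 2 * (D * ρ) * w.1 ∧ 0 < w.1 := by
    intro w hw
    obtain ⟨⟨g1, g2, g3, g4, g5, g6⟩, h2⟩ := hT w (hT' hw)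
    have hb : (0:ℝ) < (w.1:ℝ) := by exact_mod_cast g1
    refine ⟨?_, ?_, ?_, ?_, g1⟩
    · rw [div_le_iff₀ (by positivity)]; linarith
    · rw [le_div_iff₀ (by positivity)]; linarith
    · rw [zero_mul, sub_zero]
      rwa [le_div_iff₀ hM0]
    · rw [hth2] at h2
      have h3 : |((w.2.2:ℝ)/D - w.2.1 * x)/w.1 - y| < 2 * ρ := by
        have : (thD3 x D N K u (f^17) w).1 = ((w.2.2:ℝ)/D - w.2.1 * x)/w.1 := rfl
        rw [this] at h2
        linarith
      have e : (w.2.2:ℝ) - (D * x) * w.2.1 - (D * y) * w.1 =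
          (((w.2.2:ℝ)/D - w.2.1 * x)/w.1 - y) * (D * w.1) := by
        field_simp
      rw [e, abs_mul, abs_of_pos (mul_pos hDr hb)]
      have := mul_le_mul_of_nonneg_right h3.le (mul_pos hDr hb).le
      linarith
  have hpar : ∀ z ∈ T', ∀ z' ∈ T', z ≠ z' → ¬ (z.2.1 * z'.2.2 - z.2.2 * z'.2.1 = 0 ∧
      z.2.2 * z'.1 - z.1 * z'.2.2 = 0 ∧ z.1 * z'.2.1 - z.2.1 * z'.1 = 0) := by
    rintro z hz z' hz' hne ⟨_, h2, h3⟩
    refine hne (hinj (Finset.mem_coe.2 (hT' hz)) (Finset.mem_coe.2 (hT' hz')) ?_)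
    have hq : (0:ℝ) < (z.1:ℝ) := by exact_mod_cast (hfacts z hz).2.2.2.2
    have hq' : (0:ℝ) < (z'.1:ℝ) := by exact_mod_cast (hfacts z' hz').2.2.2.2
    have h2r : (z.2.2:ℝ) * z'.1 - z.1 * z'.2.2 = 0 := by exact_mod_cast h2
    have h3r : (z.1:ℝ) * z'.2.1 - z.2.1 * z'.1 = 0 := by exact_mod_cast h3
    unfold thD3
    rw [Prod.mk.injEq]
    refine ⟨?_, rfl⟩
    rw [div_eq_div_iff (by positivity) (by positivity)]
    field_simp
    linear_combination h2r + (D:ℝ) * x * h3r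
  have hρK : 24 * (D * ρ) * K^2 * J < M^3 * u * uk * 1 := by
    have h1 : (24 * (D * ρ) * K^2 * J) * 1 ≤ 24 * ρ * (N * K) := by
      calc (24 * (D * ρ) * K^2 * J) * 1 = 24 * ρ * (D * J * K * K) := by ring
        _ ≤ 24 * ρ * (I * J * K * K) := by gcongr
        _ = 24 * ρ * (N * K) := by rw [hN]
    linarith
  have hdet : 12 * (D * ρ) * (K/(u*M))^2 * (J/M) < 1 := by
    have e : 12 * (D * ρ) * (K/(u*M))^2 * (J/M) = (12 * (D * ρ) * K^2 * J)/(u^2 * M^3) := by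
      field_simp
    rw [e, div_lt_one (by positivity)]
    have h1 : M^3 * u * uk ≤ M^3 * u * u := by gcongr
    nlinarith
  obtain ⟨w, hw, hort, hb1, hb2, hb3⟩ := lines' (D * y) (D * ρ) 0 (D * x) (J/M) (K/(2*u*M))
    (K/(u*M)) (by positivity) (by positivity) (by positivity)
    hdet T' (F^11) (pow_pos hF0n 11) hcard hpar
    (fun z hz => ⟨(hfacts z hz).1, (hfacts z hz).2.1⟩) (fun z hz => (hfacts z hz).2.2.1)
    (fun z hz => (hfacts z hz).2.2.2.1)
  rw [hMr] at hb1 hb2 hb3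
  have hb1' : |(w.2.2:ℝ)| * (u * M^3) ≤ 4 * (J * K) := by
    have e : 2 * (J/M) * (K/(u*M))^2 / (K/(2*u*M)) = 4 * (J * K) / (u * M^2) := by
      field_simp; norm_num
    rw [e, le_div_iff₀ (by positivity)] at hb1
    linarith
  have hb2' : |(w.2.1:ℝ) + D * x * w.2.2| * J * 6 ≤ 1 := by
    have e : 4 * (D * ρ) * (K/(u*M))^2 = 4 * (D * ρ) * K^2/(u^2 * M^2) := by field_simp
    rw [e, le_div_iff₀ (by positivity)] at hb2
    set z := |(w.2.1:ℝ) + D * x * w.2.2| with hz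
    have hz0 : 0 ≤ z := abs_nonneg _
    have h1 : (z * J * 6) * (M^3 * u^2) ≤ 1 * (M^3 * u^2) := by
      calc (z * J * 6) * (M^3 * u^2) = 6 * (M * z * (u^2 * M^2)) * J := by ring
        _ ≤ 6 * (4 * (D * ρ) * K^2) * J := by gcongr
        _ = 24 * (D * ρ) * K^2 * J := by ring
        _ ≤ M^3 * u * uk := by linarith
        _ ≤ M^3 * u * u := by gcongr
        _ = 1 * (M^3 * u^2) := by ring
    exact le_of_mul_le_mul_right h1 (by positivity)
  have hb3' : ∀ y' : ℝ, |y' - y| ≤ ρ → |(w.1:ℝ) + D * y' * w.2.2| * K ≤ uk := by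
    intro y' hy'
    have h0 := hb3 (D * y') (by
      rw [← mul_sub, abs_mul, abs_of_pos hDr]
      gcongr)
    rw [zero_mul, zero_mul, add_zero, add_zero] at h0
    have e : 10 * (D * ρ) * (J/M) * (K/(u*M))^2 / (K/(2*u*M)) = 20 * (D * ρ) * J * K / (u * M^2) := by
      field_simp; norm_num
    rw [e, le_div_iff₀ (by positivity)] at h0
    set z := |(w.1:ℝ) + D * y' * w.2.2| with hz
    have hz0 : 0 ≤ z := abs_nonneg _
    have h1 : (z * K) * (M^3 * u) ≤ uk * (M^3 * u) := by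
      calc (z * K) * (M^3 * u) = (M * z * (u * M^2)) * K := by ring
        _ ≤ (20 * (D * ρ) * J * K) * K := by gcongr
        _ ≤ 24 * (D * ρ) * K^2 * J := by
            have : 0 ≤ (D * ρ) * J * K * K := by positivity
            nlinarith
        _ ≤ M^3 * u * uk := by linarith
        _ = uk * (M^3 * u) := by ring
    exact le_of_mul_le_mul_right h1 (by positivity)
  clear hb1 hb2 hb3
  have hw3 : w.2.2 ≠ 0 := by
    intro h3
    have hw2 : w.2.1 = 0 := by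
      by_contra h2
      rw [h3] at hb2'
      have h4 : (1:ℝ) ≤ |(w.2.1:ℝ)| := by
        have := Int.one_le_abs h2
        exact_mod_cast this
      rw [Int.cast_zero, mul_zero, add_zero] at hb2'
      nlinarith
    have h1 := hort v0 hv0
    rw [h3, hw2] at h1
    have hv1 : v0.1 ≠ 0 := by
      have := (hT v0 (hT' hv0)).1.1
      omega
    have : w.1 = 0 := by
      have h4 : w.1 * v0.1 = 0 := by linarith
      rcases mul_eq_zero.1 h4 with h | h
      · exact h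
      · exact absurd h hv1
    exact hw.ne_zero ⟨this, hw2, h3⟩
  obtain ⟨q', p, p', hq'0, hq'r, hp, hp'⟩ : ∃ q' p p' : ℤ, 0 < q' ∧ (q':ℝ) = |(w.2.2:ℝ)| ∧
      |(p:ℝ) - (D * q') * x| = |(w.2.1:ℝ) + D * x * w.2.2| ∧
      ∀ y' : ℝ, |(p':ℝ) - (D * q') * y'| = |(w.1:ℝ) + D * y' * w.2.2| := by
    rcases lt_or_gt_of_ne hw3 with h | h
    · refine ⟨-w.2.2, w.2.1, w.1, by omega, ?_, ?_, ?_⟩
      · have : ((w.2.2:ℤ):ℝ) < 0 := by exact_mod_cast h
        rw [abs_of_neg this]; simp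
      · congr 1; push_cast; ring
      · intro y'; congr 1; push_cast; ring
    · refine ⟨w.2.2, -w.2.1, -w.1, h, ?_, ?_, ?_⟩
      · have : (0:ℝ) < ((w.2.2:ℤ):ℝ) := by exact_mod_cast h
        rw [abs_of_pos this]
      · rw [← abs_neg]; congr 1; push_cast; ring
      · intro y'; rw [← abs_neg]; congr 1; push_cast; ring
  refine HP (D * q') p p' (mul_pos (by exact_mod_cast hD) hq'0) (Dvd.intro _ rfl) ?_ ?_ ?_
  · push_cast
    have e : f^33 = M^3 := by rw [hM]; ring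
    rw [e, hq'r]
    calc (D:ℝ) * |(w.2.2:ℝ)| * (u * M^3) = D * (|(w.2.2:ℝ)| * (u * M^3)) := by ring
      _ ≤ I * (4 * (J * K)) := by gcongr
      _ = 4 * N := by rw [hN]; ring
  · push_cast
    rw [hp]
    have h1 : 0 ≤ |(w.2.1:ℝ) + D * x * w.2.2| * J := by positivity
    nlinarith
  · intro y' hy'
    push_cast
    rw [hp']
    exact hb3' y' hy'

end Pool.Agent.H238R3.MS
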