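import Pool.Agent.H238R3.MS.Base

set_option autoImplicit false

/-!
# Points and lines for the mixed sets
-/

namespace Pool.Agent.H238R3.MS

open Pool.Agent.H238R3.Lines Pool.Agent.H238R3.Game Pool.Agent.H238R3.Fam

/-- a point `v = (q', p, p')`, `q = D q'`, of the level `N` at the scale `ρ` -/
def okP3 (x : ℝ) (D : ℕ) (ρ N J K C0 G : ℝ) (v : ℤ × ℤ × ℤ) : Prop :=
  0 < v.1 ∧ N ≤ 2 * C0 * (D * v.1) ∧ C0 * (D * v.1) < N ∧
  |(v.2.1:ℝ) - D * x * v.1| * J ≤ 1 ∧ ρ < G/(N*K) ∧ G/(N*K) ≤ 65536 * ρ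

/-- the threat of a point -/
noncomputable def thP3 (D : ℕ) (N K C0 : ℝ) (v : ℤ × ℤ × ℤ) : ℝ × ℝ :=
  ((v.2.2:ℝ)/(D * v.1), 2*C0/(N*K))

/-- a line `w = (b, c, a)`: `b y + c x = a / D`, of the class `(N, u)` at the scale `ρ` -/
def okD3 (ρ N J K u uk M : ℝ) (w : ℤ × ℤ × ℤ) : Prop :=
  0 < w.1 ∧ (w.1:ℝ) * u * M ≤ K ∧ K < 2 * (w.1:ℝ) * u * M ∧ |(w.2.1:ℝ)| * M ≤ J ∧
  ρ < M^3 * u * uk / (24 * N * K) ∧ M^3 * u * uk / (24 * N * K) ≤ 65536 * ρ

/-- the threat of a line -/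
noncomputable def thD3 (x : ℝ) (D : ℕ) (N K u CM : ℝ) (w : ℤ × ℤ × ℤ) : ℝ × ℝ :=
  (((w.2.2:ℝ)/D - w.2.1 * x)/w.1, 2*u*CM/(N*K))

theorem cardP3 (x y ρ N I J K δ Δ : ℝ) (D F : ℕ) (hρ : 0 < ρ) (hN : N = I * J * K)
    (hI : 1 ≤ I) (hJ : 1 ≤ J) (hK : 1 ≤ K) (hD : 0 < D) (hDI : (D:ℝ) ≤ I) (hID : I ≤ Δ * D)
    (hΔ : 1 ≤ Δ) (hδ : 0 < δ) (hF : 2^30 * Δ ≤ F) (hFδ : 2 * Δ < δ * F)
    (hX : ∀ Q p : ℤ, 0 < Q → (D:ℤ) ∣ Q → (Q:ℝ) ≤ I * J → δ * D ≤ Q * K * |(Q:ℝ) * x - p|)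
    (HD : ∀ (l : ℕ) (w : ℤ × ℤ × ℤ), 0 < w.1 → (w.1:ℝ) * (2:ℝ)^l * (F:ℝ)^11 ≤ K →
      K < 2 * (w.1:ℝ) * (2:ℝ)^l * (F:ℝ)^11 → |(w.2.1:ℝ)| * (F:ℝ)^11 ≤ J →
      65536 * ρ < ((F:ℝ)^11)^3 * (2:ℝ)^l / (24 * N * K) →
      ¬ (|y - (thD3 x D N K (2^l) ((F:ℝ)^17) w).1| + ρ ≤ (thD3 x D N K (2^l) ((F:ℝ)^17) w).2))
    (T : Finset (ℤ × ℤ × ℤ)) (hinj : Set.InjOn (thP3 D N K ((F:ℝ)^17)) (T : Set (ℤ × ℤ × ℤ)))
    (hT : ∀ v ∈ T, okP3 x D ρ N J K ((F:ℝ)^17) ((F:ℝ)^33) v ∧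
      |(thP3 D N K ((F:ℝ)^17) v).1 - y| < (thP3 D N K ((F:ℝ)^17) v).2 + ρ) :
    T.card ≤ F^11 := by
  have hI0 : 0 < I := by linarith
  have hJ0 : 0 < J := by linarith
  have hK0 : 0 < K := by linarith
  have hΔ0 : 0 < Δ := by linarith
  have hN0 : 0 < N := by rw [hN]; positivity
  have hDr : (0:ℝ) < D := by exact_mod_cast hD
  have hD1 : (1:ℝ) ≤ D := by exact_mod_cast hD
  have hF30 : (2:ℝ)^30 ≤ F := by nlinarith [show (0:ℝ) < 2^30 by positivity]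
  have hF0 : (0:ℝ) < F := by linarith [show (0:ℝ) < 2^30 by positivity]
  have hF1 : (1:ℝ) ≤ F := by linarith [show (1:ℝ) ≤ 2^30 by norm_num]
  have hF0n : 0 < F := by exact_mod_cast hF0
  by_contra hcon
  push Not at hcon
  obtain ⟨T', hT', hcard⟩ := Finset.exists_subset_card_eq (show F^11 + 1 ≤ T.card by omega)
  obtain ⟨v0, hv0⟩ : T'.Nonempty := by
    rw [← Finset.card_pos]; omega
  have hMr : ((F^11 : ℕ):ℝ) = (F:ℝ)^11 := by push_cast; ring
  obtain ⟨f, hf⟩ : ∃ f : ℝ, f = (F:ℝ) := ⟨_, rfl⟩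
  rw [← hf] at hF hFδ HD hF30 hF0 hF1 hMr hT hinj
  -- bound on ρ
  have hρN : ρ * (N * K) < f^33 := by
    have := (hT v0 (hT' hv0)).1.2.2.2.2.1
    rwa [lt_div_iff₀ (by positivity)] at this
  have hρ2 : f^33 ≤ 65536 * (ρ * (N * K)) := by
    have := (hT v0 (hT' hv0)).1.2.2.2.2.2
    rw [div_le_iff₀ (by positivity)] at this
    linarith
  have hth2 : ∀ v, (thP3 D N K (f^17) v).2 = 2*f^17/(N*K) := fun v => rfl
  have hthle : 2*f^17/(N*K) ≤ ρ := by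
    rw [div_le_iff₀ (by positivity)]
    have h1 : 2^17 * f^17 ≤ f^33 := by
      calc 2^17 * f^17 ≤ f^16 * f^17 := by
            have : (2:ℝ)^17 ≤ f^16 := by
              calc (2:ℝ)^17 ≤ 2^30 := by norm_num
                _ ≤ f := hF30
                _ = f^1 := (pow_one _).symm
                _ ≤ f^16 := pow_le_pow_right₀ hF1 (by norm_num)
            gcongr
        _ = f^33 := by ring
    linarith
  have hfacts : ∀ v ∈ T', N/(2*f^17*D) ≤ (v.1:ℝ) ∧ (v.1:ℝ) ≤ N/(f^17*D) ∧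
      |(v.2.1:ℝ) - D * x * v.1| ≤ 1/J ∧
      |(v.2.2:ℝ) - 0 * v.2.1 - (D * y) * v.1| ≤ 2 * (D * ρ) * v.1 ∧ 0 < v.1 := by
    intro v hv
    obtain ⟨⟨g1, g2, g3, g4, g5, g6⟩, h2⟩ := hT v (hT' hv)
    have hq : (0:ℝ) < (v.1:ℝ) := by exact_mod_cast g1
    refine ⟨?_, ?_, ?_, ?_, g1⟩
    · rw [div_le_iff₀ (by positivity)]; linarith
    · rw [le_div_iff₀ (by positivity)]; linarith
    · rwa [le_div_iff₀ hJ0]
    · rw [hth2] at h2
      have h3 : |(v.2.2:ℝ)/(D * v.1) - y| < 2 * ρ := by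
        have : (thP3 D N K (f^17) v).1 = (v.2.2:ℝ)/(D * v.1) := rfl
        rw [this] at h2
        linarith
      have e : (v.2.2:ℝ) - 0 * v.2.1 - (D * y) * v.1 = ((v.2.2:ℝ)/(D * v.1) - y) * (D * v.1) := by
        field_simp; ring
      rw [e, abs_mul, abs_of_pos (mul_pos hDr hq)]
      have := mul_le_mul_of_nonneg_right h3.le (mul_pos hDr hq).le
      linarith
  have hpar : ∀ z ∈ T', ∀ z' ∈ T', z ≠ z' → ¬ (z.2.1 * z'.2.2 - z.2.2 * z'.2.1 = 0 ∧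
      z.2.2 * z'.1 - z.1 * z'.2.2 = 0 ∧ z.1 * z'.2.1 - z.2.1 * z'.1 = 0) := by
    rintro z hz z' hz' hne ⟨_, h2, _⟩
    refine hne (hinj (Finset.mem_coe.2 (hT' hz)) (Finset.mem_coe.2 (hT' hz')) ?_)
    have hq : (0:ℝ) < (z.1:ℝ) := by exact_mod_cast (hfacts z hz).2.2.2.2
    have hq' : (0:ℝ) < (z'.1:ℝ) := by exact_mod_cast (hfacts z' hz').2.2.2.2
    have h2r : (z.2.2:ℝ) * z'.1 - z.1 * z'.2.2 = 0 := by exact_mod_cast h2
    unfold thP3
    rw [Prod.mk.injEq]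
    refine ⟨?_, rfl⟩
    rw [div_eq_div_iff (by positivity) (by positivity)]
    linear_combination (D:ℝ) * h2r
  -- D ρ bounds
  have hρ3 : ρ * N^2 < f^33 * (I * J) := by
    have h1 : ρ * N^2 * K < f^33 * (I * J) * K := by
      calc ρ * N^2 * K = (ρ * (N * K)) * N := by ring
        _ < f^33 * N := by gcongr
        _ = f^33 * (I * J) * K := by rw [hN]; ring
    exact lt_of_mul_lt_mul_right h1 hK0.le
  have hdet : 12 * (D * ρ) * (N/(f^17*D))^2 * (1/J) < 1 := by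
    have e : 12 * (D * ρ) * (N/(f^17*D))^2 * (1/J) = 12 * (ρ * N^2) / (f^34 * D * J) := by
      field_simp
    rw [e, div_lt_one (by positivity)]
    calc 12 * (ρ * N^2) < 12 * (f^33 * (I * J)) := by gcongr
      _ ≤ 12 * (f^33 * ((Δ * D) * J)) := by gcongr
      _ = (12 * Δ) * (f^33 * (D * J)) := by ring
      _ ≤ f * (f^33 * (D * J)) := by
          have : 12 * Δ ≤ f := by nlinarith [show (12:ℝ) ≤ 2^30 by norm_num]
          gcongr
      _ = f^34 * D * J := by ring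
  obtain ⟨w, hw, hort, hb1, hb2, hb3⟩ := lines' (D * y) (D * ρ) (D * x) 0 (1/J) (N/(2*f^17*D))
    (N/(f^17*D)) (by positivity) (by positivity) (by positivity)
    hdet T' (F^11) (pow_pos hF0n 11) hcard hpar
    (fun z hz => ⟨(hfacts z hz).1, (hfacts z hz).2.1⟩) (fun z hz => (hfacts z hz).2.2.1)
    (fun z hz => (hfacts z hz).2.2.2.1)
  rw [hMr] at hb1 hb2 hb3
  set M : ℝ := f^11 with hM
  have hM0 : 0 < M := by rw [hM]; positivity
  have hM1 : 1 ≤ M := by rw [hM]; exact one_le_pow₀ hF1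
  -- consequences
  have h4Δ : 4 * Δ ≤ f := by nlinarith [show (4:ℝ) ≤ 2^30 by norm_num]
  have hb1' : M * |(w.2.2:ℝ)| * f^17 ≤ 4 * Δ * K := by
    have e : 2 * (1/J) * (N/(f^17*D))^2 / (N/(2*f^17*D)) = 4 * N / (J * f^17 * D) := by
      field_simp; norm_num
    rw [e, le_div_iff₀ (by positivity)] at hb1
    have h1 : M * |(w.2.2:ℝ)| * f^17 * (J * D) ≤ (4 * Δ * K) * (J * D) := by
      calc M * |(w.2.2:ℝ)| * f^17 * (J * D) = M * |(w.2.2:ℝ)| * (J * f^17 * D) := by ring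
        _ ≤ 4 * N := hb1
        _ = 4 * I * (J * K) := by rw [hN]; ring
        _ ≤ 4 * (Δ * D) * (J * K) := by gcongr
        _ = (4 * Δ * K) * (J * D) := by ring
    exact le_of_mul_le_mul_right h1 (by positivity)
  have hb2' : M * |(w.2.1:ℝ)| * (D * f) ≤ 4 * (I * J) := by
    rw [zero_mul, add_zero] at hb2
    have e : 4 * (D * ρ) * (N/(f^17*D))^2 = 4 * (ρ * N^2) / (f^34 * D) := by field_simp
    rw [e, le_div_iff₀ (by positivity)] at hb2
    have h1 : M * |(w.2.1:ℝ)| * (D * f) * f^33 ≤ 4 * (I * J) * f^33 := by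
      calc M * |(w.2.1:ℝ)| * (D * f) * f^33 = M * |(w.2.1:ℝ)| * (f^34 * D) := by ring
        _ ≤ 4 * (ρ * N^2) := hb2
        _ ≤ 4 * (f^33 * (I * J)) := by gcongr
        _ = 4 * (I * J) * f^33 := by ring
    exact le_of_mul_le_mul_right h1 (by positivity)
  have hb3' : ∀ y' : ℝ, |y' - y| ≤ ρ →
      |(w.1:ℝ) + D * x * w.2.1 + D * y' * w.2.2| * N ≤ f^6 * D := by
    intro y' hy'
    have h0 := hb3 (D * y') (by
      rw [← mul_sub, abs_mul, abs_of_pos hDr]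
      gcongr)
    rw [mul_zero, add_zero] at h0
    have e : 10 * (D * ρ) * (1/J) * (N/(f^17*D))^2 / (N/(2*f^17*D)) = 20 * (ρ * N) / (J * f^17) := by
      field_simp; norm_num
    rw [e, le_div_iff₀ (by positivity)] at h0
    set z := |(w.1:ℝ) + D * x * w.2.1 + D * y' * w.2.2| with hz
    have hz0 : 0 ≤ z := abs_nonneg _
    have h1 : (z * N) * (f^28 * (J * K)) ≤ (20 * Δ) * (f^33 * (D * (J * K))) := by
      calc (z * N) * (f^28 * (J * K)) = (M * z * (J * f^17)) * (N * K) := by rw [hM]; ring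
        _ ≤ (20 * (ρ * N)) * (N * K) := by gcongr
        _ = 20 * (ρ * (N * K)) * N := by ring
        _ ≤ 20 * f^33 * N := by gcongr
        _ = 20 * f^33 * (I * (J * K)) := by rw [hN]; ring
        _ ≤ 20 * f^33 * ((Δ * D) * (J * K)) := by gcongr
        _ = (20 * Δ) * (f^33 * (D * (J * K))) := by ring
    have h2 : (z * N) * (f^28 * (J * K)) ≤ (f^6 * D) * (f^28 * (J * K)) := by
      refine h1.trans ?_
      calc (20 * Δ) * (f^33 * (D * (J * K))) ≤ f * (f^33 * (D * (J * K))) := by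
            have : 20 * Δ ≤ f := by nlinarith [show (20:ℝ) ≤ 2^30 by norm_num]
            gcongr
        _ = (f^6 * D) * (f^28 * (J * K)) := by ring
    exact le_of_mul_le_mul_right h2 (by positivity)
  clear hb1 hb2 hb3
  by_cases hw3 : w.2.2 = 0
  · -- all points on a vertical line: excluded by the choice of x
    obtain ⟨g1, g2, g3, g4, g5, g6⟩ := (hT v0 (hT' hv0)).1
    have hq : (0:ℝ) < (v0.1:ℝ) := by exact_mod_cast g1
    have hort0 := hort v0 hv0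
    rw [hw3] at hort0
    have hw2 : w.2.1 ≠ 0 := by
      intro h2
      rw [h2] at hort0
      have h4 : w.1 * v0.1 = 0 := by linarith
      rcases mul_eq_zero.1 h4 with h | h
      · exact hw.ne_zero ⟨h, h2, hw3⟩
      · omega
    have hw2r : (1:ℝ) ≤ |(w.2.1:ℝ)| := by
      have := Int.one_le_abs hw2
      exact_mod_cast this
    -- Q = D |w2|
    obtain ⟨Q, p, hQ, hDQ, hQr, hYr⟩ : ∃ Q p : ℤ, 0 < Q ∧ (D:ℤ) ∣ Q ∧ (Q:ℝ) = D * |(w.2.1:ℝ)| ∧
        |(Q:ℝ) * x - p| = |(w.1:ℝ) + D * x * w.2.1| := by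
      rcases lt_or_gt_of_ne hw2 with h | h
      · refine ⟨D * (-w.2.1), w.1, mul_pos (by exact_mod_cast hD) (by omega), Dvd.intro _ rfl, ?_, ?_⟩
        · have : ((w.2.1:ℤ):ℝ) < 0 := by exact_mod_cast h
          rw [abs_of_neg this]; push_cast; ring
        · rw [← abs_neg]; congr 1; push_cast; ring
      · refine ⟨D * w.2.1, -w.1, mul_pos (by exact_mod_cast hD) h, Dvd.intro _ rfl, ?_, ?_⟩
        · have : (0:ℝ) < ((w.2.1:ℤ):ℝ) := by exact_mod_cast h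
          rw [abs_of_pos this]; push_cast; ring
        · congr 1; push_cast; ring
    have hQ0 : (0:ℝ) < Q := by exact_mod_cast hQ
    have hQM : (Q:ℝ) * M ≤ I * J := by
      have h1 : (Q:ℝ) * M * f ≤ 4 * (I * J) := by
        calc (Q:ℝ) * M * f = M * |(w.2.1:ℝ)| * (D * f) := by rw [hQr]; ring
          _ ≤ 4 * (I * J) := hb2'
      have h2 : (4:ℝ) ≤ f := by linarith [show (4:ℝ) ≤ 2^30 by norm_num]
      have h3 : (Q:ℝ) * M * 4 ≤ 4 * (I * J) := by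
        refine le_trans ?_ h1
        gcongr
      linarith
    have hQIJ : (Q:ℝ) ≤ I * J := by
      refine le_trans ?_ hQM
      nlinarith
    have hX0 := hX Q p hQ hDQ hQIJ
    rw [hYr] at hX0
    set z := |(w.1:ℝ) + D * x * w.2.1| with hz
    -- y1 |w2| = q' z
    have hy1 : |(v0.2.1:ℝ) - D * x * v0.1| * |(w.2.1:ℝ)| = v0.1 * z := by
      have h1 : (w.1:ℝ) * v0.1 + w.2.1 * v0.2.1 = 0 := by
        have : ((w.1 * v0.1 + w.2.1 * v0.2.1 + 0 * v0.2.2 : ℤ):ℝ) = 0 := by rw [hort0]; simp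
        push_cast at this
        linarith
      rw [hz, ← abs_mul, ← abs_of_pos hq, ← abs_mul, abs_of_pos hq, ← abs_neg]
      congr 1
      linear_combination -h1
    have h5 : N * z * J ≤ 2 * f^17 * Q := by
      calc N * z * J ≤ (2 * f^17 * (D * v0.1)) * z * J := by gcongr
        _ = 2 * f^17 * D * (v0.1 * z) * J := by ring
        _ = 2 * f^17 * D * |(w.2.1:ℝ)| * (|(v0.2.1:ℝ) - D * x * v0.1| * J) := by rw [← hy1]; ring
        _ ≤ 2 * f^17 * D * |(w.2.1:ℝ)| * 1 := by gcongr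
        _ = 2 * f^17 * Q := by rw [hQr]; ring
    have h6 : δ * M^2 ≤ 2 * f^17 * Δ := by
      have h7 : (δ * M^2) * (N * J * D) ≤ (2 * f^17 * Δ) * (N * J * D) := by
        calc (δ * M^2) * (N * J * D) = M^2 * (N * J) * (δ * D) := by ring
          _ ≤ M^2 * (N * J) * (Q * K * z) := by gcongr
          _ = M^2 * Q * K * (N * z * J) := by ring
          _ ≤ M^2 * Q * K * (2 * f^17 * Q) := by gcongr
          _ = 2 * f^17 * K * (Q * M)^2 := by ring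
          _ ≤ 2 * f^17 * K * (I * J)^2 := by gcongr
          _ = (2 * f^17) * (N * J) * I := by rw [hN]; ring
          _ ≤ (2 * f^17) * (N * J) * (Δ * D) := by gcongr
          _ = (2 * f^17 * Δ) * (N * J * D) := by ring
      exact le_of_mul_le_mul_right h7 (by positivity)
    have h8 : f^17 * (2 * Δ) < f^17 * (δ * f^5) := by
      have : f ≤ f^5 := by
        calc f = f^1 := (pow_one _).symm
          _ ≤ f^5 := pow_le_pow_right₀ hF1 (by norm_num)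
      have h9 : 2 * Δ < δ * f^5 := by nlinarith
      gcongr
    have h9 : f^17 * (δ * f^5) = δ * M^2 := by rw [hM]; ring
    linarith
  -- normalise the line
  obtain ⟨l, hl1, hlb, hlc, hlx⟩ : ∃ l : ℤ × ℤ × ℤ, 0 < l.1 ∧ (l.1:ℝ) = |(w.2.2:ℝ)| ∧
      |(l.2.1:ℝ)| = |(w.2.1:ℝ)| ∧
      ∀ y' : ℝ, |(l.2.2:ℝ) - D * x * l.2.1 - D * y' * l.1| =
        |(w.1:ℝ) + D * x * w.2.1 + D * y' * w.2.2| := by
    rcases lt_or_gt_of_ne hw3 with h | h
    · refine ⟨(-w.2.2, -w.2.1, w.1), by simpa using h, ?_, ?_, ?_⟩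
      · have : ((w.2.2:ℤ):ℝ) < 0 := by exact_mod_cast h
        rw [abs_of_neg this]; simp
      · simp
      · intro y'; congr 1; push_cast; ring
    · refine ⟨(w.2.2, w.2.1, -w.1), h, ?_, ?_, ?_⟩
      · have : (0:ℝ) < ((w.2.2:ℤ):ℝ) := by exact_mod_cast h
        rw [abs_of_pos this]
      · simp
      · intro y'; rw [← abs_neg]; congr 1; push_cast; ring
  have hl1r : (0:ℝ) < (l.1:ℝ) := by exact_mod_cast hl1
  have hbM : (l.1:ℝ) * M * f^17 ≤ 4 * Δ * K := by rw [hlb]; linarith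
  have hbM' : (l.1:ℝ) * M ≤ K := by
    have h1 : (l.1:ℝ) * M * (4 * Δ) ≤ K * (4 * Δ) := by
      calc (l.1:ℝ) * M * (4 * Δ) ≤ (l.1:ℝ) * M * f^17 := by
            have : f ≤ f^17 := by
              calc f = f^1 := (pow_one _).symm
                _ ≤ f^17 := pow_le_pow_right₀ hF1 (by norm_num)
            have : 4 * Δ ≤ f^17 := by linarith
            gcongr
        _ ≤ 4 * Δ * K := hbM
        _ = K * (4 * Δ) := by ring
    exact le_of_mul_le_mul_right h1 (by positivity)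
  obtain ⟨j, hj1, hj2⟩ := exists_nat_pow_near
    (show 1 ≤ K/((l.1:ℝ) * M) from (one_le_div (by positivity)).2 hbM')
    (show (1:ℝ) < 2 by norm_num)
  rw [le_div_iff₀ (by positivity)] at hj1
  rw [div_lt_iff₀ (by positivity), pow_succ] at hj2
  have hu0 : (0:ℝ) < 2^j := by positivity
  refine HD j l hl1 ?_ ?_ ?_ ?_ ?_
  · linarith
  · linarith
  · rw [hlc]
    have h1 : |(w.2.1:ℝ)| * M * (4 * Δ * D) ≤ J * (4 * Δ * D) := by
      calc |(w.2.1:ℝ)| * M * (4 * Δ * D) ≤ |(w.2.1:ℝ)| * M * (f * D) := by gcongr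
        _ = M * |(w.2.1:ℝ)| * (D * f) := by ring
        _ ≤ 4 * (I * J) := hb2'
        _ ≤ 4 * ((Δ * D) * J) := by gcongr
        _ = J * (4 * Δ * D) := by ring
    exact le_of_mul_le_mul_right h1 (by positivity)
  · -- earlier stage
    have hu8 : f^17 ≤ 8 * Δ * 2^j := by
      have h1 : f^17 * ((l.1:ℝ) * M) ≤ (8 * Δ * 2^j) * ((l.1:ℝ) * M) := by
        calc f^17 * ((l.1:ℝ) * M) = (l.1:ℝ) * M * f^17 := by ring
          _ ≤ 4 * Δ * K := hbM
          _ ≤ 4 * Δ * (2^j * 2 * ((l.1:ℝ) * M)) := by gcongr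
          _ = (8 * Δ * 2^j) * ((l.1:ℝ) * M) := by ring
      exact le_of_mul_le_mul_right h1 (by positivity)
    rw [lt_div_iff₀ (by positivity)]
    have h2 : 8 * Δ * (65536 * ρ * (24 * N * K)) < 8 * Δ * (M^3 * 2^j) := by
      calc 8 * Δ * (65536 * ρ * (24 * N * K)) = (8 * 65536 * 24 * Δ) * (ρ * (N * K)) := by ring
        _ < (8 * 65536 * 24 * Δ) * f^33 := by gcongr
        _ ≤ f * f^33 := by
            have : 8 * 65536 * 24 * Δ ≤ f := by nlinarith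
            gcongr
        _ = M^3 * f^1 := by rw [hM]; ring
        _ ≤ M^3 * f^17 := by
            have : f^1 ≤ f^17 := pow_le_pow_right₀ hF1 (by norm_num)
            gcongr
        _ ≤ M^3 * (8 * Δ * 2^j) := by gcongr
        _ = 8 * Δ * (M^3 * 2^j) := by ring
    exact lt_of_mul_lt_mul_left h2 (by positivity)
  · refine contains_of hρ.le (fun y' hy' => ?_)
    have h1 := hb3' y' hy'
    rw [← hlx] at h1
    have h2 : y' - (thD3 x D N K (2^j) (f^17) l).1 =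
        -(((l.2.2:ℝ) - D * x * l.2.1 - D * y' * l.1)/(D * l.1)) := by
      simp only [thD3]; field_simp; ring
    rw [h2, abs_neg, abs_div, abs_of_pos (mul_pos hDr hl1r)]
    have h3 : (thD3 x D N K (2^j) (f^17) l).2 = 2*2^j*f^17/(N*K) := rfl
    rw [h3, div_le_div_iff₀ (mul_pos hDr hl1r) (by positivity)]
    set z := |(l.2.2:ℝ) - D * x * l.2.1 - D * y' * l.1| with hz
    calc z * (N * K) = (z * N) * K := by ring
      _ ≤ (f^6 * D) * K := by gcongr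
      _ ≤ (f^6 * D) * (2^j * 2 * ((l.1:ℝ) * M)) := by gcongr
      _ = 2*2^j*f^17 * (D * (l.1:ℝ)) := by rw [hM]; ring

end Pool.Agent.H238R3.MS
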