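import Pool.Agent.H238R3.MS.SysX
import Pool.Agent.H238R3.MS.LD

set_option autoImplicit false

/-!
# The two-variable systems
-/

namespace Pool.Agent.H238R3.MS

open Pool.Agent.H238R3.Lines Pool.Agent.H238R3.Game Pool.Agent.H238R3.Fam

/-- two-variable good points -/
def Good2 (d : ℕ → ℕ) (i j k x y : ℝ) : Prop :=
  ∃ C0 : ℝ, 1 ≤ C0 ∧ ∀ (s : ℕ) (q p p' : ℤ), 0 < q → (2:ℝ)^s ≤ 2 * C0 * q →
    C0 * q < (2:ℝ)^s → (PP d (lev d (((2:ℝ)^s)^i)) : ℤ) ∣ q →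
    |(q:ℝ) * x - p| * ((2:ℝ)^s)^j ≤ 1 → 1 ≤ |(q:ℝ) * y - p'| * ((2:ℝ)^s)^k

theorem sys2 {d : ℕ → ℕ} (hd : ∀ n, 2 ≤ d n) {Mx : ℕ} (hM : ∀ n, d n ≤ Mx) {i j k : ℝ}
    (hi : 0 ≤ i) (hj : 0 < j) (hk : 0 < k) (hijk : i + j + k = 1) {κ x : ℝ} (hκ0 : 0 < κ)
    (hκk : κ ≤ k) (hx : GoodX d κ x) :
    ∃ L0, ∀ L, L0 ≤ L → System L (1/2^15) (Good2 d i j k x) := by
  classical
  obtain ⟨δ, hδ0, hδx⟩ := hx
  have hk1 : k < 1 := by linarith
  have hMx : 2 ≤ Mx := (hd 0).trans (hM 0)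
  have hΔ1' : (1:ℝ) ≤ (Mx:ℝ) := by exact_mod_cast (by omega : 1 ≤ Mx)
  -- the ratio
  set r : ℝ := ((2:ℝ)^k)⁻¹ with hr
  have h2k : 1 < (2:ℝ)^k := Real.one_lt_rpow (by norm_num) hk
  have hr0 : 0 < r := by rw [hr]; positivity
  have hr1 : r < 1 := inv_lt_one_of_one_lt₀ h2k
  have hlam1 : W r < 1 := W_lt_one hr0.le hr1
  have hlam0 : 0 ≤ W r := W_nonneg hr0.le
  obtain ⟨F, hF⟩ := exists_nat_ge (max (max (2^30 * (Mx:ℝ)) (2 * (Mx:ℝ)/δ + 1))
    (2^38/(1 - W r)))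
  obtain ⟨Δ, hΔ⟩ : ∃ Δ : ℝ, Δ = (Mx:ℝ) := ⟨_, rfl⟩
  have hΔM : ∀ X : ℝ, X ≤ Δ * (PP d (lev d X):ℝ) := fun X => by rw [hΔ]; exact lt_lev hd hM X
  rw [← hΔ] at hF hΔ1'
  have hΔ1 := hΔ1'
  have hFa : 2^30 * Δ ≤ (F:ℝ) := (le_max_left _ _).trans ((le_max_left _ _).trans hF)
  have hFb : 2 * Δ/δ + 1 ≤ (F:ℝ) := (le_max_right _ _).trans ((le_max_left _ _).trans hF)
  have hFc : 2^38/(1 - W r) ≤ (F:ℝ) := (le_max_right _ _).trans hF
  have hFδ : 2 * Δ < δ * F := by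
    have h1 : 2 * Δ/δ < F := by linarith
    rw [div_lt_iff₀ hδ0] at h1
    linarith
  have hFlam : 2^38 ≤ (F:ℝ) * (1 - W r) := by
    rwa [div_le_iff₀ (by linarith)] at hFc
  have hF38 : (2:ℝ)^38 ≤ F := by
    have h1 : (F:ℝ) * (1 - W r) ≤ F * 1 := by
      have : (0:ℝ) ≤ F := Nat.cast_nonneg F
      gcongr
      linarith
    linarith
  have hF0 : (0:ℝ) < F := by linarith [show (0:ℝ) < 2^38 by positivity]
  have hF1 : (1:ℝ) ≤ F := by linarith [show (1:ℝ) ≤ 2^38 by norm_num]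
  have hF30 : (2:ℝ)^30 ≤ F := by linarith [show (2:ℝ)^30 ≤ 2^38 by norm_num]
  obtain ⟨L0, hL0⟩ := pow_unbounded_of_one_lt ((F:ℝ)^33) (show (1:ℝ) < 65536 by norm_num)
  refine ⟨L0, fun L hL => ?_⟩
  have hL' : (F:ℝ)^33 ≤ (65536:ℝ)^L :=
    hL0.le.trans (pow_le_pow_right₀ (by norm_num) hL)
  -- data of the level s
  let N : ℕ → ℝ := fun s => (2:ℝ)^s
  let I : ℕ → ℝ := fun s => ((2:ℝ)^s)^i
  let J : ℕ → ℝ := fun s => ((2:ℝ)^s)^j
  let K : ℕ → ℝ := fun s => ((2:ℝ)^s)^k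
  let D : ℕ → ℕ := fun s => PP d (lev d (((2:ℝ)^s)^i))
  have hN1 : ∀ s, 1 ≤ N s := fun s => one_le_pow₀ (by norm_num)
  have hN0 : ∀ s, 0 < N s := fun s => lt_of_lt_of_le one_pos (hN1 s)
  have hI1 : ∀ s, 1 ≤ I s := fun s => Real.one_le_rpow (hN1 s) hi
  have hJ1 : ∀ s, 1 ≤ J s := fun s => Real.one_le_rpow (hN1 s) hj.le
  have hK1 : ∀ s, 1 ≤ K s := fun s => Real.one_le_rpow (hN1 s) hk.le
  have hK0 : ∀ s, 0 < K s := fun s => lt_of_lt_of_le one_pos (hK1 s)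
  have hJ0 : ∀ s, 0 < J s := fun s => lt_of_lt_of_le one_pos (hJ1 s)
  have hI0 : ∀ s, 0 < I s := fun s => lt_of_lt_of_le one_pos (hI1 s)
  have hNIJK : ∀ s, N s = I s * J s * K s := by
    intro s
    show N s = (N s)^i * (N s)^j * (N s)^k
    rw [← Real.rpow_add (hN0 s), ← Real.rpow_add (hN0 s), hijk, Real.rpow_one]
  have hDpos : ∀ s, 0 < D s := fun s => PP_pos hd _
  have hDI : ∀ s, (D s:ℝ) ≤ I s := fun s => lev_spec d (hI1 s)
  have hID : ∀ s, I s ≤ Δ * (D s:ℝ) := fun s => hΔM _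
  have hNmono : ∀ s s', s ≤ s' → N s ≤ N s' := fun s s' h =>
    pow_le_pow_right₀ (by norm_num) h
  have hKN : ∀ s, K s ≤ N s := by
    intro s
    have : (N s)^k ≤ (N s)^(1:ℝ) := Real.rpow_le_rpow_of_exponent_le (hN1 s) hk1.le
    rwa [Real.rpow_one] at this
  -- splitting
  have hNadd : ∀ h l, N (h+l) = N h * (2:ℝ)^l := fun h l => pow_add _ _ _
  have hKadd : ∀ h l, K (h+l) = K h * ((2:ℝ)^l)^k := by
    intro h l
    show (N (h+l))^k = (N h)^k * ((2:ℝ)^l)^k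
    rw [hNadd, Real.mul_rpow (hN0 h).le (by positivity)]
  let tP : ℕ → ℝ := fun s => (F:ℝ)^33/(N s * K s)
  let tD : ℕ → ℝ := fun h => (F:ℝ)^33/(24 * (N h * K h))
  have htP0 : ∀ s, 0 < tP s := by
    intro s
    have := hN0 s; have := hK0 s
    show 0 < (F:ℝ)^33/(N s * K s)
    positivity
  have htD0 : ∀ s, 0 < tD s := by
    intro s
    have := hN0 s; have := hK0 s
    show 0 < (F:ℝ)^33/(24 * (N s * K s))
    positivity
  have hKmono : ∀ s, K s ≤ K (s+1) := fun s =>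
    Real.rpow_le_rpow (hN0 s).le (hNmono s (s+1) (by omega)) hk.le
  have htPhalf : ∀ s, tP (s+1) ≤ tP s / 2 := by
    intro s
    have h1 := hN0 s; have h2 := hK0 s
    have h3 : N (s+1) = 2 * N s := by show (2:ℝ)^(s+1) = 2 * (2:ℝ)^s; ring
    have h4 := hKmono s
    show (F:ℝ)^33/(N (s+1) * K (s+1)) ≤ (F:ℝ)^33/(N s * K s) / 2
    rw [div_div]
    refine div_le_div_of_nonneg_left (by positivity) (by positivity) ?_
    rw [h3]
    calc N s * K s * 2 = 2 * N s * K s := by ring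
      _ ≤ 2 * N s * K (s+1) := by gcongr
  have htDhalf : ∀ s, tD (s+1) ≤ tD s / 2 := by
    intro s
    have h1 := hN0 s; have h2 := hK0 s
    have h3 : N (s+1) = 2 * N s := by show (2:ℝ)^(s+1) = 2 * (2:ℝ)^s; ring
    have h4 := hKmono s
    show (F:ℝ)^33/(24 * (N (s+1) * K (s+1))) ≤ (F:ℝ)^33/(24 * (N s * K s)) / 2
    rw [div_div]
    refine div_le_div_of_nonneg_left (by positivity) (by positivity) ?_
    rw [h3]
    calc 24 * (N s * K s) * 2 = 24 * (2 * N s * K s) := by ring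
      _ ≤ 24 * (2 * N s * K (s+1)) := by gcongr
  have htDeq : ∀ h l, ((F:ℝ)^11)^3 * (2:ℝ)^l * ((2:ℝ)^l)^k / (24 * N (h+l) * K (h+l)) = tD h := by
    intro h l
    show _ = (F:ℝ)^33/(24 * (N h * K h))
    rw [hNadd, hKadd]
    have h1 := hN0 h; have h2 := hK0 h
    have h3 : (0:ℝ) < ((2:ℝ)^l)^k := by positivity
    rw [div_eq_div_iff (by positivity) (by positivity)]
    ring
  have htPL : ∀ s, tP s ≤ (65536:ℝ)^L := by
    intro s
    refine le_trans ?_ hL'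
    show (F:ℝ)^33/(N s * K s) ≤ (F:ℝ)^33
    refine div_le_self (by positivity) ?_
    have := hN1 s; have := hK1 s
    nlinarith
  have htDL : ∀ s, tD s ≤ (65536:ℝ)^L := by
    intro s
    refine le_trans ?_ hL'
    show (F:ℝ)^33/(24 * (N s * K s)) ≤ (F:ℝ)^33
    refine div_le_self (by positivity) ?_
    have := hN1 s; have := hK1 s
    nlinarith
  let Thr : ℕ → Set (ℝ × ℝ) := fun n =>
    {t | (∃ s v, okP3 x (D s) (rhoL L n) (N s) (J s) (K s) ((F:ℝ)^17) ((F:ℝ)^33) v ∧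
        t = thP3 (D s) (N s) (K s) ((F:ℝ)^17) v) ∨
      (∃ h l w, okD3 (rhoL L n) (N (h+l)) (J (h+l)) (K (h+l)) (2^l) (((2:ℝ)^l)^k) ((F:ℝ)^11) w ∧
        t = thD3 x (D (h+l)) (N (h+l)) (K (h+l)) (2^l) ((F:ℝ)^17) w)}
  have stP : ∀ (s : ℕ) (v : ℤ × ℤ × ℤ), 0 < v.1 → N s ≤ 2 * (F:ℝ)^17 * (D s * v.1) →
      (F:ℝ)^17 * (D s * v.1) < N s → |(v.2.1:ℝ) - D s * x * v.1| * J s ≤ 1 →
      ∃ n, thP3 (D s) (N s) (K s) ((F:ℝ)^17) v ∈ Thr n ∧ tP s ≤ 65536 * rhoL L n := by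
    intro s v h1 h2 h3 h4
    obtain ⟨n, hn1, hn2⟩ := exists_stageL L (tP s) (htP0 s) (htPL s)
    exact ⟨n, Or.inl ⟨s, v, ⟨h1, h2, h3, h4, hn1, hn2⟩, rfl⟩, hn2⟩
  have stD : ∀ (h l : ℕ) (w : ℤ × ℤ × ℤ), 0 < w.1 →
      (w.1:ℝ) * (2:ℝ)^l * (F:ℝ)^11 ≤ K (h+l) → K (h+l) < 2 * (w.1:ℝ) * (2:ℝ)^l * (F:ℝ)^11 →
      |(w.2.1:ℝ)| * (F:ℝ)^11 ≤ J (h+l) →
      ∃ n, thD3 x (D (h+l)) (N (h+l)) (K (h+l)) (2^l) ((F:ℝ)^17) w ∈ Thr n ∧
        tD h ≤ 65536 * rhoL L n := by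
    intro h l w h1 h2 h3 h4
    obtain ⟨n, hn1, hn2⟩ := exists_stageL L (tD h) (htD0 h) (htDL h)
    exact ⟨n, Or.inr ⟨h, l, w, ⟨h1, h2, h3, h4, by rw [htDeq]; exact hn1,
      by rw [htDeq]; exact hn2⟩, rfl⟩, hn2⟩
  refine ⟨Thr, ?_, ?_⟩
  · intro n y hno
    have hρ := rhoL_pos L n
    set ρ := rhoL L n with hρd
    -- hypotheses of the two counting theorems
    have HD : ∀ s, ∀ (l : ℕ) (w : ℤ × ℤ × ℤ), 0 < w.1 →
        (w.1:ℝ) * (2:ℝ)^l * (F:ℝ)^11 ≤ K s → K s < 2 * (w.1:ℝ) * (2:ℝ)^l * (F:ℝ)^11 →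
        |(w.2.1:ℝ)| * (F:ℝ)^11 ≤ J s →
        65536 * ρ < ((F:ℝ)^11)^3 * (2:ℝ)^l / (24 * N s * K s) →
        ¬ (|y - (thD3 x (D s) (N s) (K s) (2^l) ((F:ℝ)^17) w).1| + ρ ≤
          (thD3 x (D s) (N s) (K s) (2^l) ((F:ℝ)^17) w).2) := by
      intro s l w h1 h2 h3 h4 h5
      have hw1 : (1:ℝ) ≤ w.1 := by exact_mod_cast h1
      have hls : l ≤ s := by
        have h6 : (2:ℝ)^l ≤ 2^s := by
          calc (2:ℝ)^l = 1 * (2:ℝ)^l * 1 := by ring
            _ ≤ (w.1:ℝ) * (2:ℝ)^l * (F:ℝ)^11 := by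
                have : (1:ℝ) ≤ (F:ℝ)^11 := one_le_pow₀ hF1
                gcongr
            _ ≤ K s := h2
            _ ≤ N s := hKN s
        rwa [pow_le_pow_iff_right₀ (by norm_num)] at h6
      obtain ⟨h, rfl⟩ : ∃ h, s = h + l := ⟨s - l, by omega⟩
      obtain ⟨m, hm1, hm2⟩ := stD h l w h1 h2 h3 h4
      refine hno m (stage_ltL hm2 ?_) _ hm1
      rw [← htDeq h l]
      refine lt_of_lt_of_le h5 ?_
      have a1 := hN0 (h+l); have a2 := hK0 (h+l)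
      refine div_le_div_of_nonneg_right ?_ (by positivity)
      have h6 : (1:ℝ) ≤ ((2:ℝ)^l)^k := Real.one_le_rpow (one_le_pow₀ (by norm_num)) hk.le
      have h7 : 0 ≤ ((F:ℝ)^11)^3 * (2:ℝ)^l := by positivity
      nlinarith
    have HP : ∀ h l, ρ < tD h → ∀ (q p p' : ℤ), 0 < q → (D (h+l):ℤ) ∣ q →
        (q:ℝ) * ((2:ℝ)^l * (F:ℝ)^33) ≤ 4 * N (h+l) → |(p:ℝ) - q * x| * J (h+l) ≤ 1 →
        (∀ y', |y' - y| ≤ ρ → |(p':ℝ) - q * y'| * K (h+l) ≤ ((2:ℝ)^l)^k) → False := by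
      intro h l hρh q p p' hq hdvd h1 h2 h3
      have hqr : (0:ℝ) < q := by exact_mod_cast hq
      have hq1 : (1:ℝ) ≤ q := by exact_mod_cast hq
      -- the level of q
      have hC1 : (1:ℝ) ≤ (F:ℝ)^17 := one_le_pow₀ hF1
      have hx1 : 1 ≤ 2 * (F:ℝ)^17 * q := by nlinarith
      obtain ⟨s, hs1, hs2⟩ := exists_nat_pow_near hx1 (show (1:ℝ) < 2 by norm_num)
      rw [pow_succ] at hs2
      have hs1' : N s ≤ 2 * (F:ℝ)^17 * q := hs1
      have hs2' : (F:ℝ)^17 * q < N s := by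
        have : 2 * (F:ℝ)^17 * q < N s * 2 := hs2
        linarith
      -- N s ≤ 8 N h / F^16
      have hlev : N s * (F:ℝ)^16 ≤ 8 * N h := by
        have h4 : (N s * (F:ℝ)^16) * 2^l ≤ (8 * N h) * 2^l := by
          calc (N s * (F:ℝ)^16) * 2^l ≤ ((2 * (F:ℝ)^17 * q) * (F:ℝ)^16) * 2^l := by gcongr
            _ = 2 * ((q:ℝ) * ((2:ℝ)^l * (F:ℝ)^33)) := by ring
            _ ≤ 2 * (4 * N (h+l)) := by gcongr
            _ = (8 * N h) * 2^l := by rw [hNadd]; ring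
        exact le_of_mul_le_mul_right h4 (by positivity)
      have hF16 : (2:ℝ)^38 ≤ (F:ℝ)^16 := by
        calc (2:ℝ)^38 ≤ (F:ℝ) := hF38
          _ = (F:ℝ)^1 := (pow_one _).symm
          _ ≤ (F:ℝ)^16 := pow_le_pow_right₀ hF1 (by norm_num)
      have hNsh : N s ≤ N h := by
        have h4 : N s * 8 ≤ N s * (F:ℝ)^16 := by
          have := hN0 s
          gcongr
          linarith [show (8:ℝ) ≤ 2^38 by norm_num]
        linarith
      have hsh : s ≤ h := by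
        have : (2:ℝ)^s ≤ 2^h := hNsh
        rwa [pow_le_pow_iff_right₀ (by norm_num)] at this
      have hNs : N s ≤ N (h+l) := hNmono _ _ (by omega)
      have hJs : J s ≤ J (h+l) := Real.rpow_le_rpow (hN0 s).le hNs hj.le
      have hIs : I s ≤ I (h+l) := Real.rpow_le_rpow (hN0 s).le hNs hi
      have hKs : K s ≤ K h := Real.rpow_le_rpow (hN0 s).le hNsh hk.le
      have hDs : (D s:ℤ) ∣ q := by
        refine dvd_trans ?_ hdvd
        exact_mod_cast PP_dvd d (lev_mono hd (hI1 s) hIs)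
      obtain ⟨q', hq'⟩ := hDs
      have hDr : (0:ℝ) < (D s:ℝ) := by exact_mod_cast hDpos s
      have hqe : (q:ℝ) = (D s:ℝ) * q' := by rw [hq']; push_cast; rfl
      have hq'0 : (0:ℝ) < q' := by
        by_contra hneg
        push Not at hneg
        have : (D s:ℝ) * q' ≤ 0 := mul_nonpos_of_nonneg_of_nonpos hDr.le hneg
        linarith
      have hq'z : 0 < q' := by exact_mod_cast hq'0
      obtain ⟨m, hm1, hm2⟩ := stP s (q', p, p') hq'z (by rw [← hqe]; exact hs1')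
        (by rw [← hqe]; exact hs2') (by
          have e : (D s:ℝ) * x * q' = q * x := by rw [hqe]; ring
          simp only
          rw [e]
          calc |(p:ℝ) - q * x| * J s ≤ |(p:ℝ) - q * x| * J (h+l) := by gcongr
            _ ≤ 1 := h2)
      refine hno m (stage_ltL hm2 ?_) _ hm1 ?_
      · -- earlier stage
        have a1 := hN0 s; have a2 := hK0 s; have a3 := hN0 h; have a4 := hK0 h
        show 65536 * ρ < (F:ℝ)^33/(N s * K s)
        rw [lt_div_iff₀ (by positivity)]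
        have h4 : ρ * (24 * (N h * K h)) < (F:ℝ)^33 := by
          have h5 : ρ < (F:ℝ)^33/(24 * (N h * K h)) := hρh
          rwa [lt_div_iff₀ (by positivity)] at h5
        have h5 : (65536 * ρ * (N s * K s)) * 2^38 ≤ (F:ℝ)^33 * 2^38 := by
          calc (65536 * ρ * (N s * K s)) * 2^38 ≤ (65536 * ρ * (N s * K s)) * (F:ℝ)^16 := by gcongr
            _ = 65536 * ρ * (N s * (F:ℝ)^16) * K s := by ring
            _ ≤ 65536 * ρ * (8 * N h) * K h := by gcongr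
            _ = (65536 * 8 / 24) * (ρ * (24 * (N h * K h))) := by ring
            _ ≤ (65536 * 8 / 24) * (F:ℝ)^33 := by gcongr
            _ ≤ (F:ℝ)^33 * 2^38 := by
              have : 0 < (F:ℝ)^33 := by positivity
              nlinarith
        have h6 : 65536 * ρ * (N s * K s) < (F:ℝ)^33 := by
          have h7 : 0 < (F:ℝ)^33 := by positivity
          have h8 : (65536 * ρ * (N s * K s)) * 2^38 < (F:ℝ)^33 * 2^38 := by
            calc (65536 * ρ * (N s * K s)) * 2^38 ≤ (65536 * ρ * (N s * K s)) * (F:ℝ)^16 := by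
                  gcongr
              _ = 65536 * ρ * (N s * (F:ℝ)^16) * K s := by ring
              _ ≤ 65536 * ρ * (8 * N h) * K h := by gcongr
              _ = (65536 * 8 / 24) * (ρ * (24 * (N h * K h))) := by ring
              _ ≤ (65536 * 8 / 24) * (F:ℝ)^33 := by gcongr
              _ < (F:ℝ)^33 * 2^38 := by nlinarith
          exact lt_of_mul_lt_mul_right h8 (by positivity)
        exact h6
      · -- containment
        refine contains_of hρ.le (fun y' hy' => ?_)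
        have h4 := h3 y' hy'
        have h5 : y' - (thP3 (D s) (N s) (K s) ((F:ℝ)^17) (q', p, p')).1 =
            -(((p':ℝ) - q * y')/q) := by
          show y' - (p':ℝ)/(D s * q') = _
          rw [← hqe]; field_simp; ring
        rw [h5, abs_neg, abs_div, abs_of_pos hqr]
        have h6 : (thP3 (D s) (N s) (K s) ((F:ℝ)^17) (q', p, p')).2 =
          2 * (F:ℝ)^17/(N s * K s) := rfl
        have a1 := hN0 s; have a2 := hK0 s
        rw [h6, div_le_div_iff₀ hqr (by positivity)]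
        have h7 : |(p':ℝ) - q * y'| * K s ≤ 1 := by
          have h8 : (|(p':ℝ) - q * y'| * K h) * ((2:ℝ)^l)^k ≤ 1 * ((2:ℝ)^l)^k := by
            calc (|(p':ℝ) - q * y'| * K h) * ((2:ℝ)^l)^k = |(p':ℝ) - q * y'| * K (h+l) := by
                  rw [hKadd]; ring
              _ ≤ 1 * ((2:ℝ)^l)^k := by linarith
          have h9 : |(p':ℝ) - q * y'| * K h ≤ 1 := le_of_mul_le_mul_right h8 (by positivity)
          refine le_trans ?_ h9
          gcongr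
        calc |(p':ℝ) - q * y'| * (N s * K s) = (|(p':ℝ) - q * y'| * K s) * N s := by ring
          _ ≤ 1 * N s := by gcongr
          _ ≤ 2 * (F:ℝ)^17 * q := by linarith
    have hXs : ∀ s, ∀ Q p : ℤ, 0 < Q → (D s:ℤ) ∣ Q → (Q:ℝ) ≤ I s * J s →
        δ * D s ≤ Q * K s * |(Q:ℝ) * x - p| := by
      intro s Q p hQ hdvd hQIJ
      have h1 := hδx _ Q p hQ hdvd
      refine h1.trans ?_
      have hQ1 : (1:ℝ) ≤ Q := by exact_mod_cast hQ
      have h2 : (Q:ℝ)^κ ≤ K s := by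
        have h3 : (Q:ℝ) ≤ N s := by
          refine hQIJ.trans ?_
          rw [hNIJK s]
          have := hI0 s; have := hJ0 s; have := hK1 s
          calc I s * J s = I s * J s * 1 := (mul_one _).symm
            _ ≤ I s * J s * K s := by gcongr
        calc (Q:ℝ)^κ ≤ (Q:ℝ)^k := Real.rpow_le_rpow_of_exponent_le hQ1 hκk
          _ ≤ (N s)^k := Real.rpow_le_rpow (by linarith) h3 hk.le
      have h4 : (0:ℝ) ≤ |(Q:ℝ) * x - p| := abs_nonneg _
      gcongr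
    obtain ⟨B, hB⟩ := pow_unbounded_of_one_lt ((F:ℝ)^33/ρ) (show (1:ℝ) < 2 by norm_num)
    have hBlt : ∀ s, ρ * N s < (F:ℝ)^33 → s < B := by
      intro s hs
      rw [div_lt_iff₀ hρ] at hB
      have h3 : ρ * (2:ℝ)^s < ρ * 2^B := by
        calc ρ * (2:ℝ)^s < (F:ℝ)^33 := hs
          _ < 2^B * ρ := hB
          _ = ρ * 2^B := by ring
      have h4 : (2:ℝ)^s < 2^B := lt_of_mul_lt_mul_left h3 hρ.le
      rwa [pow_lt_pow_iff_right₀ (by norm_num)] at h4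
    have SP : Small ρ {p | ∃ a ∈ Finset.range (B+1), ∃ b ∈ Finset.range (B+1),
        (b = 0 ∧ ρ < tP a ∧ tP a ≤ 65536 * ρ) ∧ p ∈ thP3 (D a) (N a) (K a) ((F:ℝ)^17) ''
        {v | okP3 x (D a) ρ (N a) (J a) (K a) ((F:ℝ)^17) ((F:ℝ)^33) v ∧
          |(thP3 (D a) (N a) (K a) ((F:ℝ)^17) v).1 - y| <
            (thP3 (D a) (N a) (K a) ((F:ℝ)^17) v).2 + ρ}}
        (16 * (((F^11:ℕ):ℝ) * W (131072/(F:ℝ)^16)) / (1 - 0)) := by
      refine class_sum2 hρ (B+1) (((F^11:ℕ):ℝ) * W (131072/(F:ℝ)^16)) 0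
        (mul_nonneg (Nat.cast_nonneg _) (W_nonneg (by positivity))) le_rfl one_pos
        (fun a b => b = 0 ∧ ρ < tP a ∧ tP a ≤ 65536 * ρ)
        (fun b U hU => window_card hρ tP htPhalf U (fun a ha => (hU a ha).2))
        (fun a _ => thP3 (D a) (N a) (K a) ((F:ℝ)^17) ''
        {v | okP3 x (D a) ρ (N a) (J a) (K a) ((F:ℝ)^17) ((F:ℝ)^33) v ∧
          |(thP3 (D a) (N a) (K a) ((F:ℝ)^17) v).1 - y| <
            (thP3 (D a) (N a) (K a) ((F:ℝ)^17) v).2 + ρ}) ?_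
      rintro a b ⟨rfl, h1, h2⟩
      rw [pow_zero, mul_one]
      have a1 := hN0 a; have a2 := hK0 a
      refine small_of_card' hρ _ _ (F^11) _ (fun T hT hinj => ?_) ?_ ?_ (by positivity)
      · exact cardP3 x y ρ (N a) (I a) (J a) (K a) δ Δ (D a) F hρ (hNIJK a) (hI1 a) (hJ1 a) (hK1 a)
          (hDpos a) (hDI a) (hID a) hΔ1 hδ0 hFa hFδ (hXs a) (HD a) T hinj hT
      · intro v hv
        show 0 < 2 * (F:ℝ)^17/(N a * K a)
        positivity
      · intro v hv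
        show 2 * (F:ℝ)^17/(N a * K a)/ρ ≤ 131072/(F:ℝ)^16
        rw [div_le_iff₀ hρ]
        have e : 2 * (F:ℝ)^17/(N a * K a) = 2/(F:ℝ)^16 * tP a := by
          show _ = 2/(F:ℝ)^16 * ((F:ℝ)^33/(N a * K a))
          field_simp
        rw [e]
        calc 2/(F:ℝ)^16 * tP a ≤ 2/(F:ℝ)^16 * (65536 * ρ) := by gcongr
          _ = 131072/(F:ℝ)^16 * ρ := by ring
    obtain ⟨B', hB'⟩ := exists_nat_ge ((B:ℝ)/(1-k))
    have SD : Small ρ {p | ∃ a ∈ Finset.range (B+B'+1), ∃ b ∈ Finset.range (B+B'+1),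
        (ρ < tD a ∧ tD a ≤ 65536 * ρ) ∧
        p ∈ thD3 x (D (a+b)) (N (a+b)) (K (a+b)) (2^b) ((F:ℝ)^17) ''
        {w | okD3 ρ (N (a+b)) (J (a+b)) (K (a+b)) (2^b) (((2:ℝ)^b)^k) ((F:ℝ)^11) w ∧
          |(thD3 x (D (a+b)) (N (a+b)) (K (a+b)) (2^b) ((F:ℝ)^17) w).1 - y| <
            (thD3 x (D (a+b)) (N (a+b)) (K (a+b)) (2^b) ((F:ℝ)^17) w).2 + ρ}}
        (16 * (((F^11:ℕ):ℝ) * W (2^22/(F:ℝ)^16)) / (1 - W r)) := by
      refine class_sum2 hρ (B+B'+1) (((F^11:ℕ):ℝ) * W (2^22/(F:ℝ)^16)) (W r)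
        (mul_nonneg (Nat.cast_nonneg _) (W_nonneg (by positivity))) hlam0 hlam1
        (fun a _ => ρ < tD a ∧ tD a ≤ 65536 * ρ)
        (fun b U hU => window_card hρ tD htDhalf U hU)
        (fun a b => thD3 x (D (a+b)) (N (a+b)) (K (a+b)) (2^b) ((F:ℝ)^17) ''
        {w | okD3 ρ (N (a+b)) (J (a+b)) (K (a+b)) (2^b) (((2:ℝ)^b)^k) ((F:ℝ)^11) w ∧
          |(thD3 x (D (a+b)) (N (a+b)) (K (a+b)) (2^b) ((F:ℝ)^17) w).1 - y| <
            (thD3 x (D (a+b)) (N (a+b)) (K (a+b)) (2^b) ((F:ℝ)^17) w).2 + ρ}) ?_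
      rintro a b ⟨h1, h2⟩
      have a1 := hN0 (a+b); have a2 := hK0 (a+b)
      have hu1 : (1:ℝ) ≤ 2^b := one_le_pow₀ (by norm_num)
      have huk1 : (1:ℝ) ≤ ((2:ℝ)^b)^k := Real.one_le_rpow hu1 hk.le
      have huk0 : (0:ℝ) < ((2:ℝ)^b)^k := by linarith
      have huku : ((2:ℝ)^b)^k ≤ (2:ℝ)^b := by
        have : ((2:ℝ)^b)^k ≤ ((2:ℝ)^b)^(1:ℝ) := Real.rpow_le_rpow_of_exponent_le hu1 hk1.le
        rwa [Real.rpow_one] at this
      have hrb : r^b = (((2:ℝ)^b)^k)⁻¹ := by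
        rw [hr, inv_pow, ← Real.rpow_natCast ((2:ℝ)^k) b, ← Real.rpow_natCast (2:ℝ) b,
          ← Real.rpow_mul (by norm_num), ← Real.rpow_mul (by norm_num), mul_comm]
      have key := small_of_card' hρ
        {w | okD3 ρ (N (a+b)) (J (a+b)) (K (a+b)) (2^b) (((2:ℝ)^b)^k) ((F:ℝ)^11) w ∧
          |(thD3 x (D (a+b)) (N (a+b)) (K (a+b)) (2^b) ((F:ℝ)^17) w).1 - y| <
            (thD3 x (D (a+b)) (N (a+b)) (K (a+b)) (2^b) ((F:ℝ)^17) w).2 + ρ}
        (thD3 x (D (a+b)) (N (a+b)) (K (a+b)) (2^b) ((F:ℝ)^17)) (F^11) (2^22/(F:ℝ)^16 * r^b)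
        (fun T hT hinj => ?_) ?_ ?_ (by positivity)
      · refine key.mono (fun t ht => ht) (le_of_eq ?_)
        rw [W_mul (by positivity) (by positivity), W_pow hr0.le]
        ring
      · exact cardD3 x y ρ (N (a+b)) (I (a+b)) (J (a+b)) (K (a+b)) (2^b) (((2:ℝ)^b)^k) (D (a+b)) F
          hρ (hNIJK _) (hI1 _) (hJ1 _) (hK1 _) hu1 huk1 huku (hDpos _) (hDI _) hF30
          (HP a b h1) T hinj hT
      · intro w hw
        show 0 < 2 * 2^b * (F:ℝ)^17/(N (a+b) * K (a+b))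
        positivity
      · intro w hw
        show 2 * 2^b * (F:ℝ)^17/(N (a+b) * K (a+b))/ρ ≤ 2^22/(F:ℝ)^16 * r^b
        rw [div_le_iff₀ hρ, hrb]
        have e : 2 * 2^b * (F:ℝ)^17/(N (a+b) * K (a+b)) =
            48/(F:ℝ)^16 * (((2:ℝ)^b)^k)⁻¹ * tD a := by
          rw [← htDeq a b]
          field_simp
          norm_num
        rw [e]
        calc 48/(F:ℝ)^16 * (((2:ℝ)^b)^k)⁻¹ * tD a ≤
            48/(F:ℝ)^16 * (((2:ℝ)^b)^k)⁻¹ * (65536 * ρ) := by gcongr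
          _ = (48 * 65536)/(F:ℝ)^16 * (((2:ℝ)^b)^k)⁻¹ * ρ := by ring
          _ ≤ 2^22/(F:ℝ)^16 * (((2:ℝ)^b)^k)⁻¹ * ρ := by
              gcongr
              norm_num
    have b1 : 16 * (((F^11:ℕ):ℝ) * W (131072/(F:ℝ)^16)) / (1 - 0) ≤ 1/2^16 := by
      have h1 : W (131072/(F:ℝ)^16) ≤ (2^5/(F:ℝ)^4)^3 := by
        refine W_le_of_le (by positivity) (by positivity) ?_
        rw [div_pow, ← pow_mul, ← pow_mul]
        gcongr
        norm_num
      rw [sub_zero, div_one]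
      push_cast
      calc 16 * ((F:ℝ)^11 * W (131072/(F:ℝ)^16)) ≤ 16 * ((F:ℝ)^11 * (2^5/(F:ℝ)^4)^3) := by gcongr
        _ = 2^19/(F:ℝ) := by field_simp; norm_num
        _ ≤ 1/2^16 := by
          rw [div_le_div_iff₀ hF0 (by positivity)]
          linarith [show (2:ℝ)^19 * 2^16 ≤ 2^38 by norm_num]
    have b2 : 16 * (((F^11:ℕ):ℝ) * W (2^22/(F:ℝ)^16)) / (1 - W r) ≤ 1/2^16 := by
      have h1 : W (2^22/(F:ℝ)^16) ≤ (2^6/(F:ℝ)^4)^3 := by
        refine W_le_of_le (by positivity) (by positivity) ?_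
        rw [div_pow, ← pow_mul, ← pow_mul]
        gcongr <;> norm_num
      rw [div_le_iff₀ (by linarith)]
      push_cast
      calc 16 * ((F:ℝ)^11 * W (2^22/(F:ℝ)^16)) ≤ 16 * ((F:ℝ)^11 * (2^6/(F:ℝ)^4)^3) := by gcongr
        _ = 2^22/(F:ℝ) := by field_simp; norm_num
        _ ≤ 1/2^16 * (1 - W r) := by
          rw [div_le_iff₀ hF0]
          linarith [show (2:ℝ)^22 * 2^16 = 2^38 by norm_num]
    refine (SP.union hρ SD).mono ?_ (by
      have : (1:ℝ)/2^16 + 1/2^16 ≤ 1/2^15 := by norm_num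
      linarith)
    rintro t ⟨ht, hmeet⟩
    rcases ht with ⟨s, v, hv, rfl⟩ | ⟨h, l, w, hw, rfl⟩
    · left
      have a1 := hN0 s; have a2 := hK0 s
      have h1 : ρ < tP s := hv.2.2.2.2.1
      have h2 : tP s ≤ 65536 * ρ := hv.2.2.2.2.2
      refine ⟨s, ?_, 0, by simp, ⟨rfl, h1, h2⟩, v, ⟨hv, hmeet⟩, rfl⟩
      have h3 : ρ * (N s * K s) < (F:ℝ)^33 := by
        have h4 : ρ < (F:ℝ)^33/(N s * K s) := h1
        rwa [lt_div_iff₀ (by positivity)] at h4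
      have h4 : ρ * N s < (F:ℝ)^33 := by
        refine lt_of_le_of_lt ?_ h3
        have := hK1 s
        calc ρ * N s = ρ * (N s * 1) := by ring
          _ ≤ ρ * (N s * K s) := by gcongr
      have := hBlt s h4
      rw [Finset.mem_range]; omega
    · right
      have a1 := hN0 h; have a2 := hK0 h
      have h1 : ρ < tD h := by
        have := hw.2.2.2.2.1
        rwa [htDeq] at this
      have h2 : tD h ≤ 65536 * ρ := by
        have := hw.2.2.2.2.2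
        rwa [htDeq] at this
      have h3 : ρ * (24 * (N h * K h)) < (F:ℝ)^33 := by
        have h4 : ρ < (F:ℝ)^33/(24 * (N h * K h)) := h1
        rwa [lt_div_iff₀ (by positivity)] at h4
      have h4 : ρ * N h < (F:ℝ)^33 := by
        refine lt_of_le_of_lt ?_ h3
        have := hK1 h
        calc ρ * N h = ρ * (1 * (N h * 1)) := by ring
          _ ≤ ρ * (24 * (N h * K h)) := by gcongr; norm_num
      have hhB := hBlt h h4
      -- bound for l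
      have hlB : l ≤ B' := by
        have hw1 : (1:ℝ) ≤ w.1 := by exact_mod_cast hw.1
        have h5 : (2:ℝ)^l ≤ ((2:ℝ)^(h+l))^k := by
          calc (2:ℝ)^l = 1 * (2:ℝ)^l * 1 := by ring
            _ ≤ (w.1:ℝ) * (2:ℝ)^l * (F:ℝ)^11 := by
                have : (1:ℝ) ≤ (F:ℝ)^11 := one_le_pow₀ hF1
                gcongr
            _ ≤ K (h+l) := hw.2.1
        rw [← Real.rpow_natCast (2:ℝ) (h+l), ← Real.rpow_mul (by norm_num),
          ← Real.rpow_natCast (2:ℝ) l, Real.rpow_le_rpow_left_iff (by norm_num)] at h5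
        push_cast at h5
        have h6 : (l:ℝ) * (1 - k) ≤ B := by
          have h7 : (h:ℝ) ≤ B := by exact_mod_cast hhB.le
          have h8 : (h:ℝ) * k ≤ h * 1 := by gcongr
          nlinarith
        have h7 : (l:ℝ) ≤ (B:ℝ)/(1-k) := by rwa [le_div_iff₀ (by linarith)]
        exact_mod_cast h7.trans hB'
      exact ⟨h, Finset.mem_range.2 (by omega), l, Finset.mem_range.2 (by omega), ⟨h1, h2⟩, w,
        ⟨hw, hmeet⟩, rfl⟩
  · intro y hy
    refine ⟨(F:ℝ)^17, one_le_pow₀ hF1, ?_⟩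
    intro s q p p' hq h1 h2 h3 h4
    obtain ⟨q', hq'⟩ := h3
    have hDr : (0:ℝ) < (D s:ℝ) := by exact_mod_cast hDpos s
    have hqr : (0:ℝ) < q := by exact_mod_cast hq
    have hqe : (q:ℝ) = (D s:ℝ) * q' := by rw [hq']; push_cast; rfl
    have hq'0 : (0:ℝ) < q' := by
      by_contra hneg
      push Not at hneg
      have : (D s:ℝ) * q' ≤ 0 := mul_nonpos_of_nonneg_of_nonpos hDr.le hneg
      linarith
    have hq'z : 0 < q' := by exact_mod_cast hq'0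
    obtain ⟨n, hn, _⟩ := stP s (q', p, p') hq'z (by rw [← hqe]; exact h1)
      (by rw [← hqe]; exact h2) (by
        have e : (D s:ℝ) * x * q' = q * x := by rw [hqe]; ring
        simp only
        rw [e, abs_sub_comm]
        exact h4)
    have h5 := hy n _ hn
    have h6 : 2 * (F:ℝ)^17/(N s * K s) ≤ |y - (p':ℝ)/(D s * q')| := h5
    have a1 := hN0 s; have a2 := hK0 s
    rw [← hqe, div_le_iff₀ (by positivity)] at h6
    have e : (q:ℝ) * y - p' = q * (y - p'/q) := by field_simp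
    rw [e, abs_mul, abs_of_pos hqr]
    show 1 ≤ q * |y - p'/q| * K s
    have h7 : N s * 1 ≤ N s * (q * |y - p'/q| * K s) := by
      calc N s * 1 = N s := mul_one _
        _ ≤ 2 * (F:ℝ)^17 * q := h1
        _ ≤ (|y - (p':ℝ)/q| * (N s * K s)) * q := by gcongr
        _ = N s * (q * |y - p'/q| * K s) := by ring
    exact le_of_mul_le_mul_left h7 a1

end Pool.Agent.H238R3.MS
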