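import Pool.Agent.H238R3.MS.Adic

set_option autoImplicit false

/-!
# The system making `x` not too well approximable along the divisors
-/

namespace Pool.Agent.H238R3.MS

open Pool.Agent.H238R3.Lines Pool.Agent.H238R3.Game Pool.Agent.H238R3.Fam

/-- `q^{1+κ} |q|_D ‖qx‖` is bounded below -/
def GoodX (d : ℕ → ℕ) (κ x : ℝ) : Prop :=
  ∃ δ : ℝ, 0 < δ ∧ ∀ (n : ℕ) (q p : ℤ), 0 < q → (PP d n : ℤ) ∣ q →
    δ * PP d n ≤ (q:ℝ) * (q:ℝ)^κ * |(q:ℝ) * x - p|

theorem sysX {d : ℕ → ℕ} (hd : ∀ n, 2 ≤ d n) {κ : ℝ} (hκ : 0 < κ) :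
    ∀ L, System L (1/2^16) (GoodX d κ) := by
  classical
  intro L
  -- the ratio
  set r : ℝ := ((2:ℝ)^κ)⁻¹ with hr
  have h2κ : 1 < (2:ℝ)^κ := Real.one_lt_rpow (by norm_num) hκ
  have hr0 : 0 < r := by rw [hr]; positivity
  have hr1 : r < 1 := inv_lt_one_of_one_lt₀ h2κ
  have hlam1 : W r < 1 := W_lt_one hr0.le hr1
  have hlam0 : 0 ≤ W r := W_nonneg hr0.le
  obtain ⟨θ, hθ0, hθ1, hθ2⟩ : ∃ θ : ℝ, 0 < θ ∧ θ ≤ 1 ∧ θ ≤ (1 - W r)/2^20 := by
    refine ⟨min 1 ((1 - W r)/2^20), lt_min one_pos (div_pos (by linarith) (by norm_num)),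
      min_le_left _ _, min_le_right _ _⟩
  set δ : ℝ := θ^4/(65536 * 32) with hδ
  have hδ0 : 0 < δ := by rw [hδ]; positivity
  have hδ1 : 65536 * (32 * δ) = θ^4 := by rw [hδ]; field_simp
  let ok : ℕ → ℕ → ℝ → ℤ × ℤ → Prop := fun n s ρ v =>
    0 < v.1 ∧ (2:ℝ)^s ≤ PP d n * v.1 ∧ (PP d n * v.1:ℝ) < 2 * 2^s ∧
    ρ < (PP d n:ℝ)/(32 * ((2:ℝ)^s)^2) ∧ (PP d n:ℝ)/(32 * ((2:ℝ)^s)^2) ≤ 65536 * ρ
  let th : ℕ → ℕ → ℤ × ℤ → ℝ × ℝ := fun n s v =>
    ((v.2:ℝ)/(PP d n * v.1), δ * PP d n * r^s/((2:ℝ)^s)^2)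
  have hPr : ∀ n, (0:ℝ) < (PP d n:ℝ) := fun n => by exact_mod_cast PP_pos hd n
  refine ⟨fun m => {t | ∃ n s v, ok n s (rhoL L m) v ∧ t = th n s v}, ?_, ?_⟩
  · intro m x _
    have hρ := rhoL_pos L m
    set ρ := rhoL L m with hρd
    obtain ⟨B, hB⟩ := pow_unbounded_of_one_lt (1/ρ) (show (1:ℝ) < 2 by norm_num)
    have key := class_sum2 hρ (B+1) (θ^3) (W r) (by positivity) hlam0 hlam1
      (fun a b => ρ < (PP d a:ℝ)/(32 * ((2:ℝ)^b)^2) ∧ (PP d a:ℝ)/(32 * ((2:ℝ)^b)^2) ≤ 65536 * ρ)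
      (fun b U hU => window_card' hρ (fun a => (PP d a:ℝ)/(32 * ((2:ℝ)^b)^2)) (by
        intro a
        rw [PP_succ]
        push_cast
        rw [← mul_div_assoc]
        refine div_le_div_of_nonneg_right ?_ (by positivity)
        have h1 : (2:ℝ) ≤ (d a:ℝ) := by exact_mod_cast hd a
        have h2 := hPr a
        nlinarith) U hU)
      (fun a b => th a b '' {v | ok a b ρ v ∧ |(th a b v).1 - x| < (th a b v).2 + ρ})
      (by
        rintro a b ⟨h1, h2⟩
        have hP := hPr a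
        have h2b : (0:ℝ) < 2^b := by positivity
        have hrb : 0 < r^b := by positivity
        have hrb1 : r^b ≤ 1 := pow_le_one₀ hr0.le hr1.le
        have hradrel : δ * PP d a * r^b/((2:ℝ)^b)^2 ≤ θ^4 * r^b * ρ := by
          have e : δ * PP d a * r^b/((2:ℝ)^b)^2 =
              32 * δ * r^b * ((PP d a:ℝ)/(32 * ((2:ℝ)^b)^2)) := by field_simp
          rw [e]
          calc 32 * δ * r^b * ((PP d a:ℝ)/(32 * ((2:ℝ)^b)^2)) ≤ 32 * δ * r^b * (65536 * ρ) := by
                gcongr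
            _ = 65536 * (32 * δ) * r^b * ρ := by ring
            _ = θ^4 * r^b * ρ := by rw [hδ1]
        have h := small_of_card' hρ {v | ok a b ρ v ∧ |(th a b v).1 - x| < (th a b v).2 + ρ}
          (th a b) 1 (θ^4 * r^b) ?_ ?_ ?_ (by positivity)
        · refine h.mono (fun t ht => ht) ?_
          rw [W_mul (by positivity) hrb.le, W_pow4 hθ0.le, W_pow hr0.le]
          simp
        · intro T hT hinj
          rw [Finset.card_le_one]
          intro v hv w hw
          by_contra hne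
          obtain ⟨⟨a1, a2, a3, a4, a5⟩, a6⟩ := hT v hv
          obtain ⟨⟨b1, b2, b3, b4, b5⟩, b6⟩ := hT w hw
          have hv0 : (0:ℝ) < v.1 := by exact_mod_cast a1
          have hw0 : (0:ℝ) < w.1 := by exact_mod_cast b1
          have hcross : v.2 * w.1 - w.2 * v.1 ≠ 0 := by
            intro h0
            refine hne (hinj (Finset.mem_coe.2 hv) (Finset.mem_coe.2 hw) ?_)
            have h0r : (v.2:ℝ) * w.1 - w.2 * v.1 = 0 := by exact_mod_cast h0
            show ((v.2:ℝ)/(PP d a * v.1), δ * PP d a * r^b/((2:ℝ)^b)^2) =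
              ((w.2:ℝ)/(PP d a * w.1), δ * PP d a * r^b/((2:ℝ)^b)^2)
            rw [Prod.mk.injEq]
            refine ⟨?_, rfl⟩
            rw [div_eq_div_iff (by positivity) (by positivity)]
            linear_combination (PP d a:ℝ) * h0r
          have hc1 : (1:ℝ) ≤ |(v.2:ℝ) * w.1 - w.2 * v.1| := by
            have := Int.one_le_abs hcross
            exact_mod_cast this
          have hrad : δ * PP d a * r^b/((2:ℝ)^b)^2 ≤ ρ := by
            refine hradrel.trans ?_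
            have h3 : θ^4 ≤ 1 := pow_le_one₀ hθ0.le hθ1
            calc θ^4 * r^b * ρ ≤ 1 * 1 * ρ := by gcongr
              _ = ρ := by ring
          have e1 : (th a b v).2 = δ * PP d a * r^b/((2:ℝ)^b)^2 := rfl
          have e2 : (th a b w).2 = δ * PP d a * r^b/((2:ℝ)^b)^2 := rfl
          rw [e1] at a6
          rw [e2] at b6
          have h3 : |(th a b v).1 - (th a b w).1| < 4 * ρ := by
            have := abs_sub_le (th a b v).1 x (th a b w).1
            rw [abs_sub_comm x] at this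
            linarith
          have h4 : (th a b v).1 - (th a b w).1 =
              ((v.2:ℝ) * w.1 - w.2 * v.1)/(PP d a * v.1 * w.1) := by
            show (v.2:ℝ)/(PP d a * v.1) - (w.2:ℝ)/(PP d a * w.1) = _
            field_simp
          rw [h4, abs_div, abs_of_pos (by positivity : (0:ℝ) < PP d a * v.1 * w.1),
            div_lt_iff₀ (by positivity)] at h3
          have h5 : (1:ℝ) < 4 * ρ * (PP d a * v.1 * w.1) := lt_of_le_of_lt hc1 h3
          have h6 : ρ * (32 * ((2:ℝ)^b)^2) < PP d a := by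
            have h7 : ρ < (PP d a:ℝ)/(32 * ((2:ℝ)^b)^2) := a4
            rwa [lt_div_iff₀ (by positivity)] at h7
          have h7 : (PP d a * v.1 : ℝ) * (PP d a * w.1) ≤ (2 * 2^b) * (2 * 2^b) := by gcongr
          have h9 : (PP d a:ℝ) < PP d a := by
            calc (PP d a:ℝ) = PP d a * 1 := (mul_one _).symm
              _ < PP d a * (4 * ρ * (PP d a * v.1 * w.1)) := by gcongr
              _ = 4 * ρ * ((PP d a * v.1 : ℝ) * (PP d a * w.1)) := by ring
              _ ≤ 4 * ρ * ((2 * 2^b) * (2 * 2^b)) := by gcongr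
              _ = (1/2) * (ρ * (32 * ((2:ℝ)^b)^2)) := by ring
              _ ≤ PP d a := by linarith
          exact lt_irrefl _ h9
        · intro v hv
          show 0 < δ * PP d a * r^b/((2:ℝ)^b)^2
          positivity
        · intro v hv
          show δ * PP d a * r^b/((2:ℝ)^b)^2/ρ ≤ θ^4 * r^b
          rw [div_le_iff₀ hρ]
          exact hradrel)
    refine key.mono ?_ ?_
    · rintro t ⟨⟨a, b, v, hv, rfl⟩, hmeet⟩
      have hP := hPr a
      have hv1 : (1:ℝ) ≤ v.1 := by exact_mod_cast hv.1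
      have hPb : (PP d a:ℝ) < 2 * 2^b := by
        refine lt_of_le_of_lt ?_ hv.2.2.1
        nlinarith
      have hab : a ≤ b := by
        have h1 : (2:ℝ)^a ≤ PP d a := by exact_mod_cast two_pow_le hd a
        have h2 : (2:ℝ)^a < 2^(b+1) := by rw [pow_succ]; linarith
        rw [pow_lt_pow_iff_right₀ (by norm_num)] at h2
        omega
      have hbB : b < B := by
        have h1 : ρ < (PP d a:ℝ)/(32 * ((2:ℝ)^b)^2) := hv.2.2.2.1
        rw [lt_div_iff₀ (by positivity)] at h1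
        have h2b : (0:ℝ) < 2^b := by positivity
        have h2 : ρ * 2^b < 1 := by
          have h3 : (ρ * 2^b) * 2^b < 1 * 2^b := by
            have h4 : 0 < ρ * ((2:ℝ)^b)^2 := by positivity
            nlinarith
          exact lt_of_mul_lt_mul_right h3 h2b.le
        rw [div_lt_iff₀ hρ] at hB
        have h3 : ρ * (2:ℝ)^b < ρ * 2^B := by linarith
        have h4 : (2:ℝ)^b < 2^B := lt_of_mul_lt_mul_left h3 hρ.le
        rwa [pow_lt_pow_iff_right₀ (by norm_num)] at h4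
      exact ⟨a, Finset.mem_range.2 (by omega), b, Finset.mem_range.2 (by omega),
        ⟨hv.2.2.2.1, hv.2.2.2.2⟩, v, ⟨hv, hmeet⟩, rfl⟩
    · have h1 : θ^3 ≤ (1 - W r)/2^20 := by
        calc θ^3 ≤ θ^1 := pow_le_pow_of_le_one hθ0.le hθ1 (by norm_num)
          _ = θ := pow_one _
          _ ≤ (1 - W r)/2^20 := hθ2
      rw [div_le_iff₀ (by linarith)]
      calc 16 * θ^3 ≤ 16 * ((1 - W r)/2^20) := by gcongr
        _ = 1/2^16 * (1 - W r) := by ring
  · intro ξ hξ
    refine ⟨δ, hδ0, ?_⟩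
    intro n q p hq hdvd
    obtain ⟨q', hq'⟩ := hdvd
    have hP := hPr n
    have hqr : (0:ℝ) < q := by exact_mod_cast hq
    have hq1 : (1:ℝ) ≤ q := by exact_mod_cast hq
    have hqe : (q:ℝ) = (PP d n:ℝ) * q' := by rw [hq']; push_cast; rfl
    have hq'0 : (0:ℝ) < q' := by
      by_contra hneg
      push Not at hneg
      have : (PP d n:ℝ) * q' ≤ 0 := mul_nonpos_of_nonneg_of_nonpos hP.le hneg
      linarith
    have hq'1 : (1:ℝ) ≤ q' := by
      have : 0 < q' := by exact_mod_cast hq'0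
      exact_mod_cast this
    obtain ⟨s, hs1, hs2⟩ := exists_nat_pow_near hq1 (show (1:ℝ) < 2 by norm_num)
    rw [pow_succ] at hs2
    have h2s : (1:ℝ) ≤ 2^s := one_le_pow₀ (by norm_num)
    have hPs : (PP d n:ℝ) < 2 * 2^s := by
      have : (PP d n:ℝ) ≤ q := by rw [hqe]; nlinarith
      linarith
    have hτL : (PP d n:ℝ)/(32 * ((2:ℝ)^s)^2) ≤ (65536:ℝ)^L := by
      have h1 : (1:ℝ) ≤ (65536:ℝ)^L := one_le_pow₀ (by norm_num)
      refine le_trans ?_ h1
      rw [div_le_one (by positivity)]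
      nlinarith
    obtain ⟨m, hm1, hm2⟩ := exists_stageL L ((PP d n:ℝ)/(32 * ((2:ℝ)^s)^2)) (by positivity) hτL
    have h4 := hξ m (th n s (q', p)) ⟨n, s, (q', p), ⟨by exact_mod_cast hq'0, by
      rw [← hqe]; exact hs1, by rw [← hqe]; linarith, hm1, hm2⟩, rfl⟩
    have h5 : δ * PP d n * r^s/((2:ℝ)^s)^2 ≤ |ξ - (p:ℝ)/(PP d n * q')| := h4
    rw [← hqe, div_le_iff₀ (by positivity)] at h5
    have e : (q:ℝ) * ξ - p = q * (ξ - p/q) := by field_simp
    rw [e, abs_mul, abs_of_pos hqr]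
    -- r^s q^κ ≥ 1
    have hrs : 1 ≤ r^s * (q:ℝ)^κ := by
      have h6 : r^s = (((2:ℝ)^s)^κ)⁻¹ := by
        rw [hr, inv_pow, ← Real.rpow_natCast ((2:ℝ)^κ) s, ← Real.rpow_natCast (2:ℝ) s,
          ← Real.rpow_mul (by norm_num), ← Real.rpow_mul (by norm_num), mul_comm]
      rw [h6, inv_mul_eq_div, one_le_div (by positivity)]
      exact Real.rpow_le_rpow (by positivity) hs1 hκ.le
    have hqκ : 0 < (q:ℝ)^κ := by positivity
    set z := |ξ - (p:ℝ)/q| with hz
    calc δ * PP d n = δ * PP d n * 1 := (mul_one _).symm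
      _ ≤ δ * PP d n * (r^s * (q:ℝ)^κ) := by gcongr
      _ = (δ * PP d n * r^s) * (q:ℝ)^κ := by ring
      _ ≤ (z * ((2:ℝ)^s)^2) * (q:ℝ)^κ := by gcongr
      _ ≤ (z * (q:ℝ)^2) * (q:ℝ)^κ := by gcongr
      _ = (q:ℝ) * (q:ℝ)^κ * (q * z) := by ring

end Pool.Agent.H238R3.MS
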